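import Mathlib

set_option autoImplicit false

/-!
The positions `p n` of the letters `1` in the fixed point of `1 → 12122121, 2 → 2`.
-/

namespace Pool.Agent.R572.Auto

/-- The offsets of the four ones of the image of `1`. -/
def d (r : ℕ) : ℕ := if r = 0 then 0 else if r = 1 then 2 else if r = 2 then 5 else 7

/-- The position of the `n`-th one. -/
def p : ℕ → ℕ
  | 0 => 0
  | n + 1 => p ((n + 1) / 4) + 7 * ((n + 1) / 4) + d ((n + 1) % 4)
decreasing_by omega

theorem p_zero : p 0 = 0 := by rw [p]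

theorem p_rec (n r : ℕ) (hr : r < 4) : p (4 * n + r) = p n + 7 * n + d r := by
  rcases hm : 4 * n + r with _ | m
  · have h1 : n = 0 := by omega
    have h2 : r = 0 := by omega
    subst h1 h2
    simp [p_zero, d]
  · rw [p]
    have h1 : (m + 1) / 4 = n := by omega
    have h2 : (m + 1) % 4 = r := by omega
    rw [h1, h2]

theorem p_rec0 (n : ℕ) : p (4 * n) = p n + 7 * n := by
  have := p_rec n 0 (by norm_num)
  simpa [d] using this

theorem p_rec1 (n : ℕ) : p (4 * n + 1) = p n + 7 * n + 2 := by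
  have := p_rec n 1 (by norm_num)
  simpa [d] using this

theorem p_rec2 (n : ℕ) : p (4 * n + 2) = p n + 7 * n + 5 := by
  have := p_rec n 2 (by norm_num)
  simpa [d] using this

theorem p_rec3 (n : ℕ) : p (4 * n + 3) = p n + 7 * n + 7 := by
  have := p_rec n 3 (by norm_num)
  simpa [d] using this

theorem p_succ (n : ℕ) : p (n + 1) = p n + 2 ∨ p (n + 1) = p n + 3 := by
  induction n using Nat.strong_induction_on with
  | _ n ih =>
    obtain ⟨m, r, hr, rfl⟩ : ∃ m r, r < 4 ∧ n = 4 * m + r := ⟨n / 4, n % 4, by omega, by omega⟩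
    rcases r with _ | _ | _ | _ | r
    · left; rw [add_zero, p_rec1, p_rec0]
    · right
      rw [zero_add, show 4 * m + 1 + 1 = 4 * m + 2 by ring, p_rec2, p_rec1]
    · left
      have : 4 * m + (0 + 1 + 1) + 1 = 4 * m + 3 := by ring
      rw [this, p_rec3]
      have : 4 * m + (0 + 1 + 1) = 4 * m + 2 := by ring
      rw [this, p_rec2]
    · have h1 : 4 * m + (0 + 1 + 1 + 1) + 1 = 4 * (m + 1) := by ring
      have h2 : 4 * m + (0 + 1 + 1 + 1) = 4 * m + 3 := by ring
      rw [h1, h2, p_rec0, p_rec3]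
      rcases ih m (by omega) with h | h <;> rw [h]
      · left; ring
      · right; ring
    · omega

theorem p_strictMono : StrictMono p := by
  apply strictMono_nat_of_lt_succ
  intro n
  rcases p_succ n with h | h <;> omega

/-- The drift `3 p n - 7 n`. -/
def E (n : ℕ) : ℤ := 3 * (p n : ℤ) - 7 * n

theorem three_p (n : ℕ) : 3 * (p n : ℤ) = 7 * n + E n := by unfold E; ring

theorem E_zero : E 0 = 0 := by simp [E, p_zero]
theorem E_rec0 (n : ℕ) : E (4 * n) = E n := by unfold E; rw [p_rec0]; push_cast; ring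
theorem E_rec1 (n : ℕ) : E (4 * n + 1) = E n - 1 := by unfold E; rw [p_rec1]; push_cast; ring
theorem E_rec2 (n : ℕ) : E (4 * n + 2) = E n + 1 := by unfold E; rw [p_rec2]; push_cast; ring
theorem E_rec3 (n : ℕ) : E (4 * n + 3) = E n := by unfold E; rw [p_rec3]; push_cast; ring

theorem E_one : E 1 = -1 := by
  have := E_rec1 0
  simpa [E_zero] using this

theorem E_two : E 2 = 1 := by
  have := E_rec2 0
  simpa [E_zero] using this

theorem E_three : E 3 = 0 := by
  have := E_rec3 0
  simpa [E_zero] using this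

theorem E_add (j a b : ℕ) (hb : b < 4 ^ j) : E (4 ^ j * a + b) = E a + E b := by
  induction j generalizing b with
  | zero =>
    have : b = 0 := by simpa using hb
    subst this
    simp [E_zero]
  | succ j ih =>
    obtain ⟨c, r, hr, rfl⟩ : ∃ m r, r < 4 ∧ b = 4 * m + r := ⟨b / 4, b % 4, by omega, by omega⟩
    have hc : c < 4 ^ j := by rw [pow_succ] at hb; omega
    have h := ih c hc
    have e : 4 ^ (j + 1) * a + (4 * c + r) = 4 * (4 ^ j * a + c) + r := by ring
    rw [e]
    rcases r with _ | _ | _ | _ | r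
    · rw [add_zero, add_zero, E_rec0, E_rec0, h]
    · rw [zero_add, E_rec1, E_rec1, h]; ring
    · rw [show 4 * (4 ^ j * a + c) + (0 + 1 + 1) = 4 * (4 ^ j * a + c) + 2 by ring,
        show 4 * c + (0 + 1 + 1) = 4 * c + 2 by ring, E_rec2, E_rec2, h]; ring
    · rw [show 4 * (4 ^ j * a + c) + (0 + 1 + 1 + 1) = 4 * (4 ^ j * a + c) + 3 by ring,
        show 4 * c + (0 + 1 + 1 + 1) = 4 * c + 3 by ring, E_rec3, E_rec3, h]
    · omega

theorem E_mul (j a : ℕ) : E (4 ^ j * a) = E a := by
  have := E_add j a 0 (by positivity)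
  simpa [E_zero] using this

theorem E_compl (j i : ℕ) (hi : i < 4 ^ j) : E (4 ^ j - 1 - i) = - E i := by
  induction j generalizing i with
  | zero =>
    have : i = 0 := by simpa using hi
    subst this
    simp [E_zero]
  | succ j ih =>
    obtain ⟨c, r, hr, rfl⟩ : ∃ m r, r < 4 ∧ i = 4 * m + r := ⟨i / 4, i % 4, by omega, by omega⟩
    have hc : c < 4 ^ j := by rw [pow_succ] at hi; omega
    have h := ih c hc
    have e : 4 ^ (j + 1) - 1 - (4 * c + r) = 4 * (4 ^ j - 1 - c) + (3 - r) := by
      rw [pow_succ]; omega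
    rw [e]
    rcases r with _ | _ | _ | _ | r
    · rw [add_zero, E_rec0, show 3 - 0 = 3 by rfl, E_rec3, h]
    · rw [zero_add, E_rec1, show 3 - 1 = 2 by rfl, E_rec2, h]; ring
    · rw [show 4 * c + (0 + 1 + 1) = 4 * c + 2 by ring, E_rec2,
        show 3 - (0 + 1 + 1) = 1 by rfl, E_rec1, h]; ring
    · rw [show 4 * c + (0 + 1 + 1 + 1) = 4 * c + 3 by ring, E_rec3,
        show 3 - (0 + 1 + 1 + 1) = 0 by rfl, add_zero, E_rec0, h]
    · omega

theorem p_add (j a b : ℕ) (hb : b < 4 ^ j) : p (4 ^ j * a + b) = p (4 ^ j * a) + p b := by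
  have h1 := three_p (4 ^ j * a + b)
  have h2 := three_p (4 ^ j * a)
  have h3 := three_p b
  rw [E_add j a b hb] at h1
  rw [E_mul] at h2
  push_cast at h1 h2
  have : (3 : ℤ) * p (4 ^ j * a + b) = 3 * (p (4 ^ j * a) + p b) := by
    rw [h1]; linarith
  exact_mod_cast mul_left_cancel₀ (by norm_num) this

theorem E_succ_ge (a : ℕ) : E a - 1 ≤ E (a + 1) := by
  unfold E
  rcases p_succ a with h | h <;> rw [h] <;> push_cast <;> linarith

/-- The cell `t` carries the letter `1`. -/
def One (t : ℕ) : Prop := ∃ n, p n = t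

theorem one_copy (j a s : ℕ) (hs : s < p (4 ^ j)) : One (p (4 ^ j * a) + s) ↔ One s := by
  constructor
  · rintro ⟨n, hn⟩
    have h1 : 4 ^ j * a ≤ n := by
      by_contra hcon
      have := p_strictMono (not_le.1 hcon)
      omega
    have h2 : n < 4 ^ j * (a + 1) := by
      by_contra hcon
      have h3 := p_strictMono.monotone (not_lt.1 hcon)
      have h4 := three_p (4 ^ j * (a + 1))
      have h5 := three_p (4 ^ j * a)
      have h6 := three_p (4 ^ j)
      have h7 : E (4 ^ j) = -1 := by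
        have := E_mul j 1
        rwa [mul_one, E_one] at this
      rw [E_mul] at h4 h5
      have h8 := E_succ_ge a
      push_cast at h4 h5 h6
      have : (p (4 ^ j * a) : ℤ) + p (4 ^ j) ≤ p (4 ^ j * (a + 1)) := by
        rw [h7] at h6
        linarith
      have h9 : p (4 ^ j * a) + p (4 ^ j) ≤ p (4 ^ j * (a + 1)) := by exact_mod_cast this
      omega
    obtain ⟨b, rfl⟩ := Nat.exists_eq_add_of_le h1
    have hb : b < 4 ^ j := by rw [mul_add] at h2; omega
    rw [p_add j a b hb] at hn
    exact ⟨b, by omega⟩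
  · rintro ⟨b, hb⟩
    have : b < 4 ^ j := by
      by_contra hcon
      have := p_strictMono.monotone (not_lt.1 hcon)
      omega
    exact ⟨4 ^ j * a + b, by rw [p_add j a b this, hb]⟩

/-- Synchronization. -/
theorem sync (j : ℕ) : ∀ n n' : ℕ, (∀ i < 24 * 4 ^ j,
    p (n + i + 1) - p (n + i) = p (n' + i + 1) - p (n' + i)) → n % 4 ^ j = n' % 4 ^ j := by
  induction j with
  | zero => intro n n' _; simp [Nat.mod_one]
  | succ j ih =>
    intro n n' h
    have hpos : 1 ≤ 4 ^ j := Nat.one_le_pow _ _ (by norm_num)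
    -- values of the gaps
    have q0 : ∀ m, p (4 * m + 1) - p (4 * m) = 2 := fun m => by rw [p_rec0, p_rec1]; omega
    have q1 : ∀ m, p (4 * m + 1 + 1) - p (4 * m + 1) = 3 := fun m => by
      rw [show 4 * m + 1 + 1 = 4 * m + 2 by ring, p_rec1, p_rec2]; omega
    have q2 : ∀ m, p (4 * m + 2 + 1) - p (4 * m + 2) = 2 := fun m => by
      rw [show 4 * m + 2 + 1 = 4 * m + 3 by ring, p_rec2, p_rec3]; omega
    have q3 : ∀ m, p (4 * m + 3 + 1) - p (4 * m + 3) = p (m + 1) - p m := fun m => by
      rw [show 4 * m + 3 + 1 = 4 * (m + 1) by ring, p_rec0, p_rec3]; omega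
    -- first level
    have hmod : n % 4 = n' % 4 := by
      obtain ⟨i, hi, nu, hnu⟩ : ∃ i, i < 16 ∧ ∃ nu, n + i = 16 * nu + 2 := by
        refine ⟨(18 - n % 16) % 16, by omega, ?_⟩
        exact ⟨(n + (18 - n % 16) % 16) / 16, by omega⟩
      have a0 : p (n + i + 1) - p (n + i) = 2 := by
        have := q2 (4 * nu)
        rw [hnu, show 16 * nu + 2 = 4 * (4 * nu) + 2 by ring]
        exact this
      have a1 : p (n + (i + 1) + 1) - p (n + (i + 1)) = 2 := by
        have h1 := q3 (4 * nu)
        rw [q0] at h1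
        rw [show n + (i + 1) = 4 * (4 * nu) + 3 by omega]
        exact h1
      have a2 : p (n + (i + 2) + 1) - p (n + (i + 2)) = 2 := by
        have h1 := q0 (4 * nu + 1)
        rw [show n + (i + 2) = 4 * (4 * nu + 1) by omega]
        exact h1
      rw [h i (by rw [pow_succ]; omega)] at a0
      rw [h (i + 1) (by rw [pow_succ]; omega)] at a1
      rw [h (i + 2) (by rw [pow_succ]; omega)] at a2
      have hne : ∀ m, p (m + 1) - p m = 2 → m % 4 ≠ 1 := by
        intro m hm hcon
        obtain ⟨c, hc⟩ : ∃ c, m = 4 * c + 1 := ⟨m / 4, by omega⟩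
        rw [hc, q1] at hm
        omega
      have b0 := hne _ a0
      have b1 := hne _ a1
      have b2 := hne _ a2
      omega
    -- next level
    obtain ⟨i, hi, mu, hmu⟩ : ∃ i, i < 4 ∧ ∃ mu, n + i = 4 * mu + 3 :=
      ⟨3 - n % 4, by omega, (n + (3 - n % 4)) / 4, by omega⟩
    obtain ⟨mu', hmu'⟩ : ∃ mu', n' + i = 4 * mu' + 3 := ⟨(n' + i) / 4, by omega⟩
    have hih := ih mu mu' (by
      intro l hl
      have h1 := h (i + 4 * l) (by rw [pow_succ]; omega)
      rw [show n + (i + 4 * l) = 4 * (mu + l) + 3 by omega,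
        show n' + (i + 4 * l) = 4 * (mu' + l) + 3 by omega, q3, q3] at h1
      exact h1)
    have h1 : (4 * mu + 3) ≡ (4 * mu' + 3) [MOD 4 ^ (j + 1)] := by
      have : mu ≡ mu' [MOD 4 ^ j] := hih
      rw [pow_succ, mul_comm (4 ^ j) 4]
      exact (Nat.ModEq.mul_left' 4 this).add_right 3
    rw [← hmu, ← hmu'] at h1
    exact Nat.ModEq.add_right_cancel' i h1

/-- The ones are not eventually periodic. -/
theorem not_periodic (D s0 : ℕ) (hD : 0 < D) (h : ∀ s, s0 ≤ s → (One s ↔ One (s + D))) : False := by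
  -- a constant index shift
  have hle : ∀ n, n ≤ p n := fun n => p_strictMono.le_apply
  obtain ⟨n1, hn1⟩ : ∃ n1, p n1 = p s0 + D := (h (p s0) (hle s0)).1 ⟨s0, rfl⟩
  have hn1s : s0 < n1 := by
    by_contra hcon
    have := p_strictMono.monotone (not_lt.1 hcon)
    omega
  obtain ⟨c, hc, hcpos⟩ : ∃ c, n1 = s0 + c ∧ 0 < c := ⟨n1 - s0, by omega, by omega⟩
  have key : ∀ i, p (s0 + i + c) = p (s0 + i) + D := by
    intro i
    induction i with
    | zero => rw [add_zero, ← hc, hn1]
    | succ i ih =>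
      have hs : s0 ≤ p (s0 + (i + 1)) := le_trans (by omega) (hle _)
      obtain ⟨m, hm⟩ := (h _ hs).1 ⟨_, rfl⟩
      have h1 : p (s0 + i) < p (s0 + (i + 1)) := p_strictMono (by omega)
      have h2 : s0 + i + c < m := by
        by_contra hcon
        have := p_strictMono.monotone (not_lt.1 hcon)
        omega
      have h3 : m ≤ s0 + i + c + 1 := by
        by_contra hcon
        have h4 : p (s0 + i + c) < p (s0 + i + c + 1) := p_strictMono (by omega)
        have h5 : p (s0 + i + c + 1) < p m := p_strictMono (by omega)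
        obtain ⟨t, ht⟩ : ∃ t, p (s0 + i + c + 1) = t + D := ⟨p (s0 + i + c + 1) - D, by omega⟩
        have h6 : s0 ≤ t := by
          have := hle (s0 + i)
          omega
        obtain ⟨l, hl⟩ := (h t h6).2 ⟨_, ht⟩
        have h7 : s0 + i < l := by
          by_contra hcon
          have := p_strictMono.monotone (not_lt.1 hcon)
          omega
        have h8 : l < s0 + (i + 1) := by
          by_contra hcon
          have := p_strictMono.monotone (not_lt.1 hcon)
          omega
        omega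
      have h4 : s0 + (i + 1) + c = m := by omega
      rw [h4, hm]
  have hE : ∀ n, s0 ≤ n → E (n + c) - E n = 3 * D - 7 * c := by
    intro n hn
    obtain ⟨i, rfl⟩ := Nat.exists_eq_add_of_le hn
    unfold E
    rw [key i]
    push_cast
    ring
  -- a large power of four
  obtain ⟨s, hs⟩ : ∃ s : ℕ, s0 + c < 4 ^ s :=
    ⟨s0 + c, Nat.lt_pow_self (by norm_num)⟩
  have h1 := hE (4 ^ s - c) (by omega)
  have h2 := hE (4 ^ s * 1 + (4 ^ s - c)) (by omega)
  have e1 : 4 ^ s - c + c = 4 ^ s * 1 := by omega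
  have e2 : 4 ^ s * 1 + (4 ^ s - c) + c = 4 ^ s * 2 := by omega
  rw [e1, E_mul, E_one] at h1
  rw [e2, E_mul, E_two, E_add s 1 (4 ^ s - c) (by omega), E_one] at h2
  linarith

end Pool.Agent.R572.Auto
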