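import Pool.Agent.R572.AutoA

set_option autoImplicit false

/-!
No finite colouring of the natural numbers can control the blocks of length `k ^ e`.
-/

namespace Pool.Agent.R572.Auto

theorem rel (t t' L j : ℕ) (hL : 72 * 4 ^ j + 5 ≤ L)
    (h : ∀ i < L, (One (t + i) ↔ One (t' + i))) :
    ∃ n n', n % 4 ^ j = n' % 4 ^ j ∧ p n + t' = p n' + t ∧ p n ≤ t + 2 ∧ p n' ≤ t' + 2 := by
  classical
  have hex : ∀ t, ∃ n, t ≤ p n := fun t => ⟨t, p_strictMono.le_apply⟩
  have hfirst : ∀ t, ∃ n, t ≤ p n ∧ (∀ l, t ≤ p l → n ≤ l) ∧ p n ≤ t + 2 := by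
    intro t
    refine ⟨Nat.find (hex t), Nat.find_spec (hex t), fun l hl => Nat.find_min' (hex t) hl, ?_⟩
    rcases hn : Nat.find (hex t) with _ | n
    · rw [p_zero]; omega
    · have h1 : ¬ t ≤ p n := Nat.find_min (hex t) (by omega)
      rcases p_succ n with h2 | h2 <;> omega
  have hpos : 1 ≤ 4 ^ j := Nat.one_le_pow _ _ (by norm_num)
  obtain ⟨n, hn1, hn2, hn3⟩ := hfirst t
  obtain ⟨n', hn1', hn2', hn3'⟩ := hfirst t'
  have h0 : p n + t' = p n' + t := by
    have a1 : One (t' + (p n - t)) := by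
      rw [← h _ (by omega)]
      exact ⟨n, by omega⟩
    have a2 : One (t + (p n' - t')) := by
      rw [h _ (by omega)]
      exact ⟨n', by omega⟩
    obtain ⟨l, hl⟩ := a1
    obtain ⟨l', hl'⟩ := a2
    have b1 := p_strictMono.monotone (hn2' l (by omega))
    have b2 := p_strictMono.monotone (hn2 l' (by omega))
    omega
  -- one step forward
  have step : ∀ (t t' m m' : ℕ), (∀ i < L, (One (t + i) ↔ One (t' + i))) → t ≤ p m → t' ≤ p m' →
      p m + 2 < t + L → p m + t' = p m' + t → p (m + 1) = p m + 2 → p (m' + 1) = p m' + 2 := by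
    intro t t' m m' h h1 h2 h3 h4 h5
    have a1 : One (t' + (p m + 2 - t)) := by
      rw [← h _ (by omega)]
      exact ⟨m + 1, by omega⟩
    obtain ⟨l, hl⟩ := a1
    have h6 : m' < l := by
      by_contra hcon
      have := p_strictMono.monotone (not_lt.1 hcon)
      omega
    have h7 := p_strictMono.monotone (show m' + 1 ≤ l by omega)
    rcases p_succ m' with h8 | h8 <;> omega
  have key : ∀ i, i ≤ 24 * 4 ^ j → p (n + i) + t' = p (n' + i) + t ∧ p (n + i) ≤ t + 2 + 3 * i ∧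
      t ≤ p (n + i) := by
    intro i
    induction i with
    | zero => intro _; exact ⟨h0, by omega, hn1⟩
    | succ i ih =>
      intro hi
      obtain ⟨h1, h2, h3⟩ := ih (by omega)
      have s1 := step t t' (n + i) (n' + i) h h3 (by omega) (by omega) h1
      have s2 := step t' t (n' + i) (n + i) (fun i hi => (h i hi).symm) (by omega) h3 (by omega)
        (by omega)
      rw [show n + (i + 1) = n + i + 1 by ring, show n' + (i + 1) = n' + i + 1 by ring]
      rcases p_succ (n + i) with h4 | h4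
      · have h5 := s1 h4
        omega
      · rcases p_succ (n' + i) with h5 | h5
        · have := s2 h5
          omega
        · omega
  refine ⟨n, n', sync j n n' ?_, h0, hn3, hn3'⟩
  intro i hi
  have h1 := key i (by omega)
  have h2 := key (i + 1) (by omega)
  rw [show n + (i + 1) = n + i + 1 by ring, show n' + (i + 1) = n' + i + 1 by ring] at h2
  omega

theorem rel2 (L j m m' : ℕ) (hm : m' < m) (hL : 72 * 4 ^ j + 5 ≤ L) (hL2 : L < 72 * 4 ^ (j + 1) + 5)
    (h : ∀ i < L, (One (L * m + i) ↔ One (L * m' + i))) :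
    ∃ a a', a < 293 * m + 3 ∧ a' < 293 * m + 3 ∧
      3 * ((L : ℤ) * (m - m')) = 7 * 4 ^ j * ((a : ℤ) - a') + (E a - E a') := by
  obtain ⟨n, n', h1, h2, h3, h4⟩ := rel (L * m) (L * m') L j hL h
  have hpos : 1 ≤ 4 ^ j := Nat.one_le_pow _ _ (by norm_num)
  have hlt : n % 4 ^ j < 4 ^ j := Nat.mod_lt _ hpos
  have hdn : 4 ^ j * (n / 4 ^ j) + n % 4 ^ j = n := Nat.div_add_mod n (4 ^ j)
  have hdn' : 4 ^ j * (n' / 4 ^ j) + n' % 4 ^ j = n' := Nat.div_add_mod n' (4 ^ j)
  have hbound : ∀ x m0, x ≤ p x → m0 ≤ m → p x ≤ L * m0 + 2 → x / 4 ^ j < 293 * m + 3 := by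
    intro x m0 hx hm0 hp
    rw [Nat.div_lt_iff_lt_mul (by omega)]
    have h5 : L * m0 ≤ (293 * 4 ^ j) * m := by
      apply Nat.mul_le_mul _ hm0
      rw [pow_succ] at hL2
      omega
    have h6 : (293 * m + 3) * 4 ^ j = (293 * 4 ^ j) * m + 3 * 4 ^ j := by ring
    rw [h6]
    omega
  refine ⟨n / 4 ^ j, n' / 4 ^ j, hbound n m p_strictMono.le_apply le_rfl h3,
    hbound n' m' p_strictMono.le_apply hm.le h4, ?_⟩
  have e1 := three_p n
  have e2 := three_p n'
  have f1 : E n = E (n / 4 ^ j) + E (n % 4 ^ j) := by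
    have := E_add j (n / 4 ^ j) (n % 4 ^ j) hlt
    rwa [hdn] at this
  have f2 : E n' = E (n' / 4 ^ j) + E (n % 4 ^ j) := by
    have := E_add j (n' / 4 ^ j) (n' % 4 ^ j) (by rw [← h1]; exact hlt)
    rwa [hdn', ← h1] at this
  have g1 : (n : ℤ) = 4 ^ j * ((n / 4 ^ j : ℕ) : ℤ) + ((n % 4 ^ j : ℕ) : ℤ) := by
    exact_mod_cast hdn.symm
  have g2 : (n' : ℤ) = 4 ^ j * ((n' / 4 ^ j : ℕ) : ℤ) + ((n % 4 ^ j : ℕ) : ℤ) := by
    rw [h1]
    exact_mod_cast hdn'.symm
  have h2' : (p n : ℤ) + L * m' = p n' + L * m := by exact_mod_cast h2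
  rw [f1] at e1
  rw [f2] at e2
  linear_combination (-3) * h2' + e1 - e2 + 7 * g1 - 7 * g2

/-- The repunits in base four. -/
def R : ℕ → ℕ
  | 0 => 0
  | i + 1 => 4 * R i + 1

theorem E_R (i : ℕ) : E (R i) = - i := by
  induction i with
  | zero => simp [R, E_zero]
  | succ i ih => rw [R, E_rec1, ih]; push_cast; ring

theorem R_add (i j : ℕ) : R (i + j) = 4 ^ j * R i + R j := by
  induction j with
  | zero => simp [R]
  | succ j ih => rw [← add_assoc, R, ih, R, pow_succ]; ring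

theorem E_mul_unbounded (v : ℕ) (hv : 0 < v) (H : ℤ) : ∃ w, H < - E (v * w) := by
  have : NeZero v := ⟨by omega⟩
  obtain ⟨y, hy⟩ := Finite.exists_infinite_fiber (fun i : ℕ => (R i : ZMod v))
  have hinf := Set.infinite_coe_iff.1 hy
  obtain ⟨j, hj⟩ := hinf.nonempty
  obtain ⟨i, hi, hij⟩ := hinf.exists_gt (j + H.toNat)
  simp only [Set.mem_preimage, Set.mem_singleton_iff] at hi hj
  obtain ⟨l, rfl⟩ := Nat.exists_eq_add_of_le (show j ≤ i by omega)
  have h1 : ((4 ^ j * R l : ℕ) : ZMod v) = 0 := by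
    have h2 : (R (l + j) : ZMod v) = (R j : ZMod v) := by rw [add_comm l j, hi, hj]
    rw [R_add] at h2
    push_cast at h2 ⊢
    linear_combination h2
  rw [ZMod.natCast_eq_zero_iff] at h1
  obtain ⟨w, hw⟩ := h1
  refine ⟨w, ?_⟩
  rw [← hw, E_mul, E_R]
  have : H.toNat < l := by omega
  have := Int.self_le_toNat H
  omega

theorem main {κ : Type} [Finite κ] (k : ℕ) (hk : 2 ≤ k) (C : ℕ → κ)
    (hC : ∀ m m', C m = C m' → ∀ e i, i < k ^ e → (One (k ^ e * m + i) ↔ One (k ^ e * m' + i))) :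
    False := by
  classical
  obtain ⟨m, m', hm, hCm⟩ : ∃ m m', m' < m ∧ C m = C m' := by
    obtain ⟨x, y, hxy, hC⟩ := Finite.exists_ne_map_eq_of_infinite C
    rcases lt_or_gt_of_ne hxy with h | h
    · exact ⟨y, x, h, hC.symm⟩
    · exact ⟨x, y, h, hC⟩
  set B := 293 * m + 3 with hB
  -- the relation, for every large exponent
  let Q : ℕ × ℕ → ℕ → Prop := fun x e => ∃ j, 72 * 4 ^ j + 5 ≤ k ^ e ∧
    k ^ e < 72 * 4 ^ (j + 1) + 5 ∧
    3 * (((k ^ e : ℕ) : ℤ) * (m - m')) = 7 * 4 ^ j * ((x.1 : ℤ) - x.2) + (E x.1 - E x.2)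
  have hke : ∀ e, e < k ^ e := fun e => Nat.lt_pow_self (by omega)
  have hQ : ∀ e, 77 ≤ e → ∃ x ∈ (Finset.range B ×ˢ Finset.range B), Q x e := by
    intro e he
    have hex : ∃ j, k ^ e < 72 * 4 ^ (j + 1) + 5 := by
      refine ⟨k ^ e, ?_⟩
      have : k ^ e < 4 ^ (k ^ e) := Nat.lt_pow_self (by norm_num)
      rw [pow_succ]
      omega
    have h1 : k ^ e < 72 * 4 ^ (Nat.find hex + 1) + 5 := Nat.find_spec hex
    have h2 : 72 * 4 ^ (Nat.find hex) + 5 ≤ k ^ e := by
      rcases hj : Nat.find hex with _ | j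
      · have := hke e
        simp only [pow_zero]
        omega
      · have := Nat.find_min hex (m := j) (by omega)
        omega
    obtain ⟨a, a', ha, ha', h3⟩ := rel2 (k ^ e) (Nat.find hex) m m' hm h2 h1
      (fun i hi => hC m m' hCm e i hi)
    exact ⟨(a, a'), by simp [ha, ha', hB], Nat.find hex, h2, h1, h3⟩
  obtain ⟨x, hx⟩ : ∃ x : ℕ × ℕ, ∀ e0, ∃ e, e0 ≤ e ∧ Q x e := by
    by_contra hcon
    push Not at hcon
    choose f hf using hcon
    set T := (Finset.range B ×ˢ Finset.range B).sup f with hT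
    obtain ⟨x, hx1, hx2⟩ := hQ (77 + T) (by omega)
    exact hf x (77 + T) (le_trans (Finset.le_sup hx1) (by omega)) hx2
  set u : ℕ := m - m' with hu
  have hupos : 0 < u := by omega
  have hu' : (m : ℤ) - m' = u := by omega
  set ga : ℤ := E x.1 - E x.2 with hga
  -- the quotient is positive
  have hvpos : 0 < (x.1 : ℤ) - x.2 := by
    obtain ⟨e, he, j, -, -, hj⟩ := hx ga.toNat
    by_contra hcon
    rw [← hga, hu'] at hj
    have h1 : (7 * 4 ^ j : ℤ) * ((x.1 : ℤ) - x.2) ≤ 0 :=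
      mul_nonpos_of_nonneg_of_nonpos (by positivity) (by omega)
    have h2 : ((k ^ e : ℕ) : ℤ) ≤ ((k ^ e : ℕ) : ℤ) * u := by
      nlinarith [Int.natCast_nonneg (k ^ e)]
    have h3 : (e : ℤ) < ((k ^ e : ℕ) : ℤ) := by exact_mod_cast hke e
    have h4 := Int.self_le_toNat ga
    have h5 : (ga.toNat : ℤ) ≤ e := by exact_mod_cast he
    linarith
  obtain ⟨v, hv⟩ : ∃ v : ℕ, (v : ℤ) = (x.1 : ℤ) - x.2 := ⟨((x.1 : ℤ) - x.2).toNat, by omega⟩
  have hvp : 0 < v := by omega
  let h : ℕ → ℤ := fun w => ga * w - E (v * w)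
  -- two indices of the same class with different values of `h`
  obtain ⟨w, w', hww, hlt⟩ : ∃ w w', C (u * w) = C (u * w') ∧ h w < h w' := by
    by_contra hcon
    push Not at hcon
    have hfac : ∀ w w', C (u * w) = C (u * w') → h w = h w' := fun w w' hh =>
      le_antisymm (hcon w' w hh.symm) (hcon w w' hh)
    have hfin : (Set.range h).Finite := by
      have h1 : (Set.range (fun w => C (u * w))).Finite := Set.toFinite _
      choose! g hg using (fun y (hy : y ∈ Set.range (fun w => C (u * w))) => hy)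
      refine (h1.image (fun y => h (g y))).subset ?_
      rintro _ ⟨w, rfl⟩
      refine ⟨C (u * w), ⟨w, rfl⟩, ?_⟩
      exact hfac _ _ (hg _ ⟨w, rfl⟩)
    obtain ⟨U, hU⟩ := hfin.bddAbove
    obtain ⟨V, hV⟩ := hfin.bddBelow
    have hUw : ∀ w, h w ≤ U := fun w => hU ⟨w, rfl⟩
    have hVw : ∀ w, V ≤ h w := fun w => hV ⟨w, rfl⟩
    have h4 : ∀ w : ℕ, h (4 * w) - h w = 3 * ga * w := by
      intro w
      change ga * ((4 * w : ℕ) : ℤ) - E (v * (4 * w)) - (ga * w - E (v * w)) = 3 * ga * w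
      rw [show v * (4 * w) = 4 * (v * w) by ring, E_rec0]
      push_cast
      ring
    have hUV : V ≤ U := (hVw 0).trans (hUw 0)
    have hga0 : ga = 0 := by
      obtain ⟨N, hN⟩ : ∃ N : ℕ, (N : ℤ) = U - V + 1 := ⟨(U - V + 1).toNat, by omega⟩
      have h5 := h4 N
      have h6 := hUw (4 * N)
      have h7 := hUw N
      have h8 := hVw (4 * N)
      have h9 := hVw N
      by_contra hne
      rcases lt_or_gt_of_ne hne with h10 | h10
      · have : 3 * ga * N ≤ - N := by nlinarith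
        linarith
      · have : (N : ℤ) ≤ 3 * ga * N := by nlinarith
        linarith
    obtain ⟨w, hw⟩ := E_mul_unbounded v hvp U
    have h5 := hUw w
    simp only [h, hga0, zero_mul, zero_sub] at h5
    linarith
  -- the offsets
  have hoff : ∀ (w e j : ℕ), 3 * (((k ^ e : ℕ) : ℤ) * (m - m')) =
      7 * 4 ^ j * ((x.1 : ℤ) - x.2) + (E x.1 - E x.2) →
      3 * (((k ^ e * (u * w) : ℕ) : ℤ) - p (4 ^ j * (v * w))) = h w := by
    intro w e j hj
    have h1 := three_p (4 ^ j * (v * w))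
    rw [E_mul] at h1
    rw [← hga, hu', ← hv] at hj
    push_cast at h1 hj ⊢
    simp only [h]
    linear_combination (w : ℤ) * hj - h1
  obtain ⟨e0, -, j0, -, -, hj0⟩ := hx 0
  obtain ⟨r, hr⟩ : ∃ r : ℤ, 3 * r = h w := ⟨_, hoff w e0 j0 hj0⟩
  obtain ⟨r', hr'⟩ : ∃ r' : ℤ, 3 * r' = h w' := ⟨_, hoff w' e0 j0 hj0⟩
  obtain ⟨D, hD⟩ : ∃ D : ℕ, (D : ℤ) = r' - r := ⟨(r' - r).toNat, by omega⟩
  refine not_periodic D r.toNat (by omega) (fun s hs => ?_)
  obtain ⟨e, he, j, hj1, hj2, hj3⟩ := hx (288 * (s + D) + 5 + r.natAbs)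
  have o1 := hoff w e j hj3
  have o2 := hoff w' e j hj3
  have hkee := hke e
  have hp4 : 4 ^ j ≤ p (4 ^ j) := p_strictMono.le_apply
  have hs4 : s + D < p (4 ^ j) := by
    rw [pow_succ] at hj2
    omega
  obtain ⟨i, hi⟩ : ∃ i : ℕ, (i : ℤ) = s - r := ⟨((s : ℤ) - r).toNat, by omega⟩
  have hik : i < k ^ e := by omega
  have hCC := hC (u * w) (u * w') hww e i hik
  have t1 : k ^ e * (u * w) + i = p (4 ^ j * (v * w)) + s := by omega
  have t2 : k ^ e * (u * w') + i = p (4 ^ j * (v * w')) + (s + D) := by omega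
  rw [t1, t2, one_copy j (v * w) s (by omega), one_copy j (v * w') (s + D) hs4] at hCC
  exact hCC

end Pool.Agent.R572.Auto
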