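import Mathlib

set_option autoImplicit false

/-!
Palindromic defect of finite words: one letter extensions, periodic zero-cost extensions and the
existence of a palindrome with exactly two occurrences in a long zero-cost extension.
Words are extended at their left end.
-/

namespace Pool.Agent.R572.Defect

/-- The palindromic factors of a word. -/
def palFactors (w : List ℕ) : Set (List ℕ) := {p | p <:+: w ∧ p.reverse = p}

/-- The defect of a finite word. -/
noncomputable def defect (w : List ℕ) : ℕ := w.length + 1 - (palFactors w).ncard

/-- `a :: u` has a palindromic prefix which is not a factor of `u`. -/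
def New (a : ℕ) (u : List ℕ) : Prop := ∃ p : List ℕ, p <+: a :: u ∧ p.reverse = p ∧ ¬ p <:+: u

open Classical in
/-- The number of letters whose insertion brings no new palindrome. -/
noncomputable def cst : List ℕ → ℕ
  | [] => 0
  | a :: u => cst u + (if New a u then 0 else 1)

theorem palFactors_finite (w : List ℕ) : (palFactors w).Finite := by
  apply (List.finite_toSet w.sublists).subset
  intro p hp
  simp only [Set.mem_setOf_eq, List.mem_sublists]
  exact hp.1.sublist

theorem pal_prefix_suffix {p q : List ℕ} (hp : p.reverse = p) (hq : q.reverse = q)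
    (h : p <+: q) : p <:+ q := by
  have := List.reverse_suffix.2 h
  rwa [hp, hq] at this

/-- Two new palindromic prefixes are equal. -/
theorem new_unique {a : ℕ} {u p q : List ℕ} (hp : p <+: a :: u) (hpp : p.reverse = p)
    (hpn : ¬ p <:+: u) (hq : q <+: a :: u) (hqq : q.reverse = q) (hqn : ¬ q <:+: u) : p = q := by
  have key : ∀ p q : List ℕ, p <+: a :: u → p.reverse = p → ¬ p <:+: u → q <+: a :: u →
      q.reverse = q → p.length ≤ q.length → p = q := by
    intro p q hp hpp hpn hq hqq hle
    have hpq : p <+: q := List.prefix_of_prefix_length_le hp hq hle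
    have hs := pal_prefix_suffix hpp hqq hpq
    by_contra hne
    apply hpn
    obtain ⟨s, hs⟩ := hs
    rcases s with _ | ⟨b, s⟩
    · exact absurd hs hne
    · rw [← hs] at hq
      obtain ⟨t, ht⟩ := hq
      simp only [List.cons_append, List.cons.injEq] at ht
      exact ⟨s, t, by rw [← ht.2]⟩
  rcases le_total p.length q.length with h | h
  · exact key p q hp hpp hpn hq hqq h
  · exact (key q p hq hqq hqn hp hpp h).symm

theorem ncard_add_cst (w : List ℕ) : (palFactors w).ncard + cst w = w.length + 1 := by
  classical
  induction w with
  | nil =>
    have : palFactors [] = {[]} := by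
      ext p
      simp only [palFactors, Set.mem_setOf_eq, Set.mem_singleton_iff, List.infix_nil]
      constructor
      · rintro ⟨h, -⟩; exact h
      · rintro rfl; simp
    rw [this]
    simp [cst]
  | cons a u ih =>
    rw [cst]
    split_ifs with h
    · obtain ⟨p, hp, hpp, hpn⟩ := h
      have : palFactors (a :: u) = insert p (palFactors u) := by
        ext q
        simp only [palFactors, Set.mem_setOf_eq, Set.mem_insert_iff, List.infix_cons_iff]
        constructor
        · rintro ⟨h | h, hq⟩
          · by_cases hqn : q <:+: u
            · exact Or.inr ⟨hqn, hq⟩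
            · exact Or.inl (new_unique h hq hqn hp hpp hpn)
          · exact Or.inr ⟨h, hq⟩
        · rintro (rfl | ⟨h, hq⟩)
          · exact ⟨Or.inl hp, hpp⟩
          · exact ⟨Or.inr h, hq⟩
      rw [this, Set.ncard_insert_of_notMem (fun h => hpn h.1) (palFactors_finite u)]
      simp only [List.length_cons]
      omega
    · have : palFactors (a :: u) = palFactors u := by
        ext q
        simp only [palFactors, Set.mem_setOf_eq, List.infix_cons_iff]
        constructor
        · rintro ⟨h' | h', hq⟩
          · by_contra hqn
            exact h ⟨q, h', hq, fun h'' => hqn ⟨h'', hq⟩⟩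
          · exact ⟨h', hq⟩
        · rintro ⟨h, hq⟩
          exact ⟨Or.inr h, hq⟩
      rw [this]
      simp only [List.length_cons]
      omega

theorem defect_eq_cst (w : List ℕ) : defect w = cst w := by
  have := ncard_add_cst w
  unfold defect
  omega

theorem palFactors_reverse (w : List ℕ) : palFactors w.reverse = palFactors w := by
  ext p
  simp only [palFactors, Set.mem_setOf_eq]
  constructor
  · rintro ⟨h, hp⟩
    refine ⟨?_, hp⟩
    rw [← hp, List.reverse_infix] at h
    exact h
  · rintro ⟨h, hp⟩
    refine ⟨?_, hp⟩
    rw [← hp, List.reverse_infix]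
    exact h

theorem cst_reverse (w : List ℕ) : cst w.reverse = cst w := by
  rw [← defect_eq_cst, ← defect_eq_cst, defect, defect, palFactors_reverse, List.length_reverse]

theorem cst_le_append_left (e u : List ℕ) : cst u ≤ cst (e ++ u) := by
  induction e with
  | nil => exact le_rfl
  | cons a e ih =>
    rw [List.cons_append, cst]
    omega

theorem cst_le_append_right (e u : List ℕ) : cst u ≤ cst (u ++ e) := by
  rw [← cst_reverse u, ← cst_reverse (u ++ e), List.reverse_append]
  exact cst_le_append_left _ _

theorem cst_mono {u v : List ℕ} (h : u <:+: v) : cst u ≤ cst v := by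
  obtain ⟨s, t, rfl⟩ := h
  exact (cst_le_append_left s u).trans (cst_le_append_right t (s ++ u))

/-- `P` occurs in `A ++ P ++ v` only at positions `0` and `|A|`. -/
def Two (A P v : List ℕ) : Prop :=
  ∀ j : ℕ, P <+: (A ++ P ++ v).drop j → j = 0 ∨ j = A.length

/-- The data allowing a periodic extension without new defect. -/
def Cert (A P v : List ℕ) : Prop :=
  A ≠ [] ∧ P.reverse = P ∧ (A ++ P).reverse = A ++ P ∧ Two A P v

theorem append_pal {A P : List ℕ} (hP : P.reverse = P) (hAP : (A ++ P).reverse = A ++ P) :
    A ++ P = P ++ A.reverse := by
  rw [← hAP, List.reverse_append, hP]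

theorem infix_drop {p W : List ℕ} (h : p <:+: W) : ∃ j, p <+: W.drop j := by
  obtain ⟨s, t, rfl⟩ := h
  exact ⟨s.length, by simp⟩

/-- One step of the periodic extension. -/
theorem cert_new {A P v A' B : List ℕ} {x : ℕ} (h : Cert A P v) (hA : A = A' ++ x :: B) :
    New x (B ++ (A ++ P ++ v)) := by
  obtain ⟨-, hP, hAP, h2⟩ := h
  have hr := append_pal hP hAP
  set W := B ++ (A ++ P ++ v) with hW
  have hlen : A.length = A'.length + 1 + B.length := by
    rw [hA]; simp; omega
  -- occurrences of `P` in `W`
  have hocc : ∀ j, P <+: W.drop j → j = B.length ∨ j = B.length + A.length := by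
    intro j hj
    rcases lt_or_ge j B.length with hlt | hge
    · exfalso
      have h1 : W.drop j = B.drop j ++ (P ++ (A.reverse ++ v)) := by
        rw [hW, List.drop_append_of_le_length hlt.le, hr]
        simp
      rw [h1] at hj
      have h3 : P <+: B.drop j ++ P := by
        refine List.prefix_of_prefix_length_le (l₃ := B.drop j ++ (P ++ (A.reverse ++ v))) hj ?_ ?_
        · rw [← List.append_assoc]; exact List.prefix_append _ _
        · simp
      have h4 : P <+: (A ++ P ++ v).drop (A'.length + 1 + j) := by
        have : (A ++ P ++ v).drop (A'.length + 1 + j) = B.drop j ++ P ++ v := by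
          have e1 : A ++ P ++ v = (A' ++ [x]) ++ (B ++ (P ++ v)) := by rw [hA]; simp
          rw [e1, ← List.drop_drop]
          have e2 : (A' ++ [x]).length = A'.length + 1 := by simp
          rw [← e2, List.drop_left, List.drop_append_of_le_length hlt.le]
          simp
        rw [this]
        exact h3.trans (List.prefix_append _ _)
      rcases h2 _ h4 with h5 | h5 <;> omega
    · obtain ⟨i, rfl⟩ := Nat.exists_eq_add_of_le hge
      have h1 : W.drop (B.length + i) = (A ++ P ++ v).drop i := by
        rw [hW, ← List.drop_drop, List.drop_left]
      rw [h1] at hj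
      rcases h2 _ hj with h5 | h5
      · left; omega
      · right; omega
  set t := x :: B ++ P ++ (x :: B).reverse with ht
  have htp : t.reverse = t := by
    rw [ht]; simp [hP]
  have hpre : t <+: x :: W := by
    have : x :: W = t ++ (A'.reverse ++ v) := by
      rw [hW, hr, ht, hA]
      simp
    rw [this]
    exact List.prefix_append _ _
  by_cases hin : t <:+: W
  · -- a longer palindromic prefix
    obtain ⟨s1, s2, hs⟩ := hin
    have hPat : P <+: W.drop (s1.length + (B.length + 1)) := by
      have : W.drop (s1.length + (B.length + 1)) = P ++ ((x :: B).reverse ++ s2) := by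
        rw [← hs, ht]
        have e1 : s1 ++ (x :: B ++ P ++ (x :: B).reverse) ++ s2 =
            (s1 ++ (x :: B)) ++ (P ++ ((x :: B).reverse ++ s2)) := by simp
        rw [e1]
        have e2 : s1.length + (B.length + 1) = (s1 ++ (x :: B)).length := by simp
        rw [e2, List.drop_left]
      rw [this]
      exact List.prefix_append _ _
    have hs1 : s1.length + 1 = A.length := by
      rcases hocc _ hPat with h5 | h5 <;> omega
    have hv : v = (x :: B).reverse ++ s2 := by
      have e1 : W.drop (s1.length + (B.length + 1) + P.length) = (x :: B).reverse ++ s2 := by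
        rw [← hs, ht]
        have e1 : s1 ++ (x :: B ++ P ++ (x :: B).reverse) ++ s2 =
            (s1 ++ (x :: B) ++ P) ++ ((x :: B).reverse ++ s2) := by simp
        rw [e1]
        have e2 : s1.length + (B.length + 1) + P.length = (s1 ++ (x :: B) ++ P).length := by
          simp; omega
        rw [e2, List.drop_left]
      have e2 : W.drop (s1.length + (B.length + 1) + P.length) = v := by
        have e3 : s1.length + (B.length + 1) + P.length = (B ++ (A ++ P)).length := by
          simp; omega
        rw [e3, hW, show B ++ (A ++ P ++ v) = (B ++ (A ++ P)) ++ v by simp, List.drop_left]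
      rw [← e2, e1]
    set T := x :: B ++ (A ++ P) ++ (x :: B).reverse with hT
    have hTp : T.reverse = T := by
      rw [hT, List.reverse_append, List.reverse_append, List.reverse_reverse, hAP]
      simp
    have hTpre : T <+: x :: W := by
      have : x :: W = T ++ s2 := by
        rw [hW, hT, hv]
        simp
      rw [this]
      exact List.prefix_append _ _
    refine ⟨T, hTpre, hTp, ?_⟩
    rintro ⟨s1', s2', hs'⟩
    have hP' : P <+: W.drop (s1'.length + (B.length + 1) + A.length) := by
      have : W.drop (s1'.length + (B.length + 1) + A.length) = P ++ ((x :: B).reverse ++ s2') := by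
        rw [← hs', hT]
        have e1 : s1' ++ (x :: B ++ (A ++ P) ++ (x :: B).reverse) ++ s2' =
            (s1' ++ (x :: B) ++ A) ++ (P ++ ((x :: B).reverse ++ s2')) := by simp
        rw [e1]
        have e2 : s1'.length + (B.length + 1) + A.length = (s1' ++ (x :: B) ++ A).length := by
          simp; omega
        rw [e2, List.drop_left]
      rw [this]
      exact List.prefix_append _ _
    rcases hocc _ hP' with h5 | h5 <;> omega
  · exact ⟨t, hpre, htp, hin⟩

theorem cert_next {A P v : List ℕ} (h : Cert A P v) : Cert A (A ++ P) v := by
  obtain ⟨hA, hP, hAP, h2⟩ := h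
  have hr := append_pal hP hAP
  refine ⟨hA, hAP, ?_, ?_⟩
  · rw [List.reverse_append, hAP, hr]
    simp [← hr]
  · intro j hj
    have h3 : P <+: (A ++ P ++ v).drop j := by
      obtain ⟨s, hs⟩ := hj
      have e1 : (A ++ (A ++ P) ++ v).drop (j + A.length) = P ++ s := by
        rw [← List.drop_drop, ← hs]
        simp
      have e2 : (A ++ (A ++ P) ++ v).drop (j + A.length) = (A ++ P ++ v).drop j := by
        rw [Nat.add_comm, ← List.drop_drop]
        congr 1
        simp
      rw [← e2, e1]
      exact List.prefix_append _ _
    exact h2 j h3

theorem cst_suffix {A P v : List ℕ} (h : Cert A P v) (A' B : List ℕ) (hA : A = A' ++ B) :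
    cst (B ++ (A ++ P ++ v)) = cst (A ++ P ++ v) := by
  induction B generalizing A' with
  | nil => rfl
  | cons x B ih =>
    rw [List.cons_append, cst, if_pos (cert_new h hA), ih (A' ++ [x]) (by rw [hA]; simp)]
    rfl

/-- The `n`-fold periodic extension. -/
theorem cst_iter {A P v : List ℕ} (h : Cert A P v) (n : ℕ) :
    cst ((List.replicate n A).flatten ++ (A ++ P ++ v)) = cst (A ++ P ++ v) := by
  induction n generalizing P with
  | zero => simp
  | succ n ih =>
    have h1 := ih (cert_next h)
    have h2 := cst_suffix h [] A rfl
    have e : (List.replicate (n + 1) A).flatten ++ (A ++ P ++ v) =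
        (List.replicate n A).flatten ++ (A ++ (A ++ P) ++ v) := by
      rw [List.replicate_succ', List.flatten_append]
      simp
    rw [e, h1, ← h2]
    simp

end Pool.Agent.R572.Defect
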