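import Pool.Agent.R572.Defect

set_option autoImplicit false

/-!
A left infinite extension of finite defect yields a certificate for a periodic one.
-/

namespace Pool.Agent.R572.Defect

/-- The extension of `w` to the left by `z (n-1), ..., z 0`. -/
def ext (z : ℕ → ℕ) (w : List ℕ) : ℕ → List ℕ
  | 0 => w
  | n + 1 => z n :: ext z w n

theorem ext_length (z : ℕ → ℕ) (w : List ℕ) (n : ℕ) : (ext z w n).length = w.length + n := by
  induction n with
  | zero => rfl
  | succ n ih => rw [ext, List.length_cons, ih]; omega

theorem ext_mem (z : ℕ → ℕ) (w : List ℕ) (hz : ∀ i, z i ∈ w) (n : ℕ) :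
    ∀ a ∈ ext z w n, a ∈ w := by
  induction n with
  | zero => intro a ha; exact ha
  | succ n ih =>
    intro a ha
    rw [ext, List.mem_cons] at ha
    rcases ha with rfl | ha
    · exact hz n
    · exact ih a ha

theorem ext_suffix (z : ℕ → ℕ) (w : List ℕ) {m n : ℕ} (h : m ≤ n) :
    ext z w m <:+ ext z w n := by
  induction n, h using Nat.le_induction with
  | base => exact List.suffix_refl _
  | succ n _ ih => exact ih.trans (List.suffix_cons _ _)

theorem ext_drop (z : ℕ → ℕ) (w : List ℕ) (n j : ℕ) (h : j ≤ n) :
    (ext z w n).drop j = ext z w (n - j) := by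
  obtain ⟨s, hs⟩ := ext_suffix z w (Nat.sub_le n j)
  have hl : s.length = j := by
    have := congrArg List.length hs
    rw [List.length_append, ext_length, ext_length] at this
    omega
  rw [← hs, ← hl, List.drop_left]

theorem ext_drop_gt (z : ℕ → ℕ) (w : List ℕ) (n j : ℕ) (h : n ≤ j) :
    (ext z w n).drop j = w.drop (j - n) := by
  have h1 : (ext z w n).drop j = ((ext z w n).drop n).drop (j - n) := by
    rw [List.drop_drop]; congr 1; omega
  rw [h1, ext_drop z w n n le_rfl]
  simp [ext]

theorem finite_words (w : List ℕ) (m : ℕ) :
    {l : List ℕ | l.length ≤ m ∧ ∀ a ∈ l, a ∈ w}.Finite := by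
  have : Finite {a // a ∈ w} := (List.finite_toSet w).to_subtype
  have h := (List.finite_length_le {a // a ∈ w} m).image (List.map Subtype.val)
  apply h.subset
  rintro l ⟨hl, hm⟩
  refine ⟨l.attach.map (fun x => ⟨x.1, hm x.1 x.2⟩), by simpa using hl, ?_⟩
  simp [List.map_map, Function.comp_def]

theorem exists_cert (w : List ℕ) (z : ℕ → ℕ) (k : ℕ) (hz : ∀ i, z i ∈ w)
    (hk : ∀ n, cst (ext z w n) ≤ k) :
    ∃ A P v, Cert A P v ∧ w <:+ (A ++ P ++ v) ∧ cst (A ++ P ++ v) ≤ k ∧
      ∀ a ∈ A ++ P ++ v, a ∈ w := by
  classical
  -- the defect is eventually constant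
  obtain ⟨N, hN⟩ : ∃ N, ∀ n, N ≤ n → cst (ext z w n) = cst (ext z w N) := by
    have hne : (Set.range fun n => cst (ext z w n)).Nonempty := Set.range_nonempty _
    have hb : BddAbove (Set.range fun n => cst (ext z w n)) :=
      ⟨k, by rintro _ ⟨n, rfl⟩; exact hk n⟩
    obtain ⟨N, hN⟩ := Nat.sSup_mem hne hb
    refine ⟨N, fun n hn => le_antisymm ?_ (cst_mono (ext_suffix z w hn).isInfix)⟩
    simp only at hN
    rw [hN]
    exact le_csSup hb ⟨n, rfl⟩
  have hnew : ∀ n, N ≤ n → New (z n) (ext z w n) := by
    intro n hn
    by_contra hcon
    have h1 := hN (n + 1) (by omega)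
    rw [ext, cst, if_neg hcon, hN n hn] at h1
    omega
  by_contra hno
  set L := (ext z w N).length with hL
  -- claim 1: long palindromes occur at most once
  have claim1 : ∀ P : List ℕ, P.reverse = P → L < P.length → ∀ n i j, i < j →
      P <+: (ext z w n).drop i → P <+: (ext z w n).drop j → False := by
    intro P hP hPL n i j hij hi hj
    have hwN : w.length ≤ L := by rw [hL, ext_length]; omega
    -- all occurrences are prefixes of some `ext z w m`
    have hjn : j < n := by
      by_contra hcon
      rw [ext_drop_gt z w n j (by omega)] at hj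
      have := hj.length_le
      rw [List.length_drop] at this
      omega
    rw [ext_drop z w n i (by omega)] at hi
    rw [ext_drop z w n j (by omega)] at hj
    have hex1 : ∃ m, P <+: ext z w m := ⟨_, hj⟩
    set m1 := Nat.find hex1 with hm1
    have h1 : P <+: ext z w m1 := Nat.find_spec hex1
    have hex2 : ∃ m, m1 < m ∧ P <+: ext z w m := by
      refine ⟨n - i, lt_of_le_of_lt (Nat.find_min' hex1 hj) (by omega), hi⟩
    set m2 := Nat.find hex2 with hm2
    have h2 : m1 < m2 ∧ P <+: ext z w m2 := Nat.find_spec hex2
    have hocc : ∀ q, P <+: (ext z w m2).drop q → q = 0 ∨ q = m2 - m1 := by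
      intro q hq
      have hqm : q ≤ m2 := by
        by_contra hcon
        rw [ext_drop_gt z w m2 q (by omega)] at hq
        have := hq.length_le
        rw [List.length_drop] at this
        omega
      rw [ext_drop z w m2 q hqm] at hq
      have h3 : m1 ≤ m2 - q := Nat.find_min' hex1 hq
      by_contra hcon
      push Not at hcon
      have h4 : m2 - q < m2 := by omega
      have h5 := Nat.find_min hex2 h4
      exact h5 ⟨by omega, hq⟩
    have hm2N : N < m1 := by
      by_contra hcon
      have := h1.length_le
      rw [ext_length] at this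
      rw [ext_length] at hL
      omega
    obtain ⟨m, hm⟩ : ∃ m, m2 = m + 1 := ⟨m2 - 1, by omega⟩
    obtain ⟨p, hp, hpp, hpn⟩ := hnew m (by omega)
    have hp' : p <+: ext z w m2 := by rw [hm]; exact hp
    have hPin : P <:+: ext z w m :=
      h1.isInfix.trans (ext_suffix z w (by omega : m1 ≤ m)).isInfix
    have hlt : P.length < p.length := by
      by_contra hcon
      have : p <+: P := List.prefix_of_prefix_length_le hp' h2.2 (by omega)
      exact hpn (this.isInfix.trans hPin)
    have hPp : P <+: p := List.prefix_of_prefix_length_le h2.2 hp' hlt.le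
    obtain ⟨A, hA⟩ := pal_prefix_suffix hP hpp hPp
    obtain ⟨v, hv⟩ := hp'
    rw [← hA] at hv
    have hAne : A ≠ [] := by
      rintro rfl
      rw [← hA] at hlt
      simp at hlt
    have hAl : A.length = m2 - m1 := by
      have : P <+: (ext z w m2).drop A.length := by
        rw [← hv, List.append_assoc, List.drop_left]
        exact List.prefix_append _ _
      rcases hocc _ this with h | h
      · exact absurd (List.length_eq_zero_iff.1 h) hAne
      · exact h
    apply hno
    refine ⟨A, P, v, ⟨hAne, hP, ?_, ?_⟩, ?_, ?_, ?_⟩
    · rw [hA]; exact hpp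
    · intro q hq
      rw [hv] at hq
      rw [hAl]
      exact hocc q hq
    · rw [hv]; exact ext_suffix z w (Nat.zero_le m2)
    · rw [hv]; exact hk m2
    · rw [hv]; exact ext_mem z w hz m2
  -- the new palindromic prefixes
  choose! p hp hpp hpn using hnew
  have hpinj : ∀ m n, N ≤ m → m < n → p m ≠ p n := by
    intro m n hm hmn heq
    apply hpn n (by omega)
    rw [← heq]
    have h1 : p m <+: ext z w (m + 1) := hp m hm
    exact h1.isInfix.trans (ext_suffix z w (by omega : m + 1 ≤ n)).isInfix
  -- claim 2
  have claim2 : ∀ n, N ≤ n → L + 2 < (p (n + 1)).length →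
      (p (n + 1)).length = (p n).length + 2 := by
    intro n hn hlong
    have hpre := hp (n + 1) (by omega)
    have hpal := hpp (n + 1) (by omega)
    -- decompose
    rcases hcase : p (n + 1) with _ | ⟨a, q'⟩
    · rw [hcase] at hlong; simp at hlong
    · rw [hcase] at hpre hpal hlong
      have hq'ne : q' ≠ [] := by
        rintro rfl
        simp at hlong
      obtain ⟨q, b, hqb⟩ : ∃ q b, q' = q ++ [b] :=
        ⟨q'.dropLast, q'.getLast hq'ne, (List.dropLast_append_getLast hq'ne).symm⟩
      rw [hqb] at hpre hpal hlong
      have hqpal : q.reverse = q := by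
        simp only [List.reverse_cons, List.reverse_append, List.reverse_nil, List.nil_append,
          List.cons_append, List.cons.injEq] at hpal
        have := hpal.2
        exact (List.append_inj' this rfl).1
      have hqpre : q <+: ext z w (n + 1) := by
        rw [List.cons_prefix_cons] at hpre
        exact (List.prefix_append q [b]).trans hpre.2
      have hqlen : L < q.length := by
        simp at hlong
        omega
      have hpn' : p n <+: ext z w (n + 1) := hp n hn
      have heq : q.length = (p n).length := by
        rcases lt_trichotomy q.length (p n).length with h | h | h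
        · exfalso
          have h1 : q <+: p n := List.prefix_of_prefix_length_le hqpre hpn' h.le
          obtain ⟨s, hs⟩ := pal_prefix_suffix hqpal (hpp n hn) h1
          have hs0 : 0 < s.length := by
            have := congrArg List.length hs
            rw [List.length_append] at this
            omega
          refine claim1 q hqpal hqlen (n + 1) 0 s.length hs0 (by simpa using hqpre) ?_
          obtain ⟨t, ht⟩ := hpn'
          rw [← ht, ← hs, List.append_assoc, List.drop_left]
          exact List.prefix_append _ _
        · exact h
        · exfalso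
          have h1 : p n <+: q := List.prefix_of_prefix_length_le hpn' hqpre h.le
          obtain ⟨s, hs⟩ := pal_prefix_suffix (hpp n hn) hqpal h1
          rcases s with _ | ⟨c, s⟩
          · simp at hs
            rw [← hs] at h
            omega
          · apply hpn n hn
            rw [← hs] at hqpre
            obtain ⟨t, ht⟩ := hqpre
            rw [ext] at ht
            simp only [List.cons_append, List.cons.injEq] at ht
            exact ⟨s, t, by rw [← ht.2]⟩
      rw [hqb]
      simp
      omega
  -- eventually all new palindromes are long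
  have hfin := finite_words w (L + 2)
  have hfin2 : {n | N ≤ n ∧ (p n).length ≤ L + 2}.Finite := by
    apply Set.Finite.of_finite_image (f := p)
    · apply hfin.subset
      rintro _ ⟨n, ⟨hn, hl⟩, rfl⟩
      refine ⟨hl, fun a ha => ?_⟩
      have h1 : p n <+: ext z w (n + 1) := hp n hn
      exact ext_mem z w hz (n + 1) a (h1.subset ha)
    · rintro m ⟨hm, -⟩ n ⟨hn, -⟩ hmn
      rcases lt_trichotomy m n with h | h | h
      · exact absurd hmn (hpinj m n hm h)
      · exact h
      · exact absurd hmn.symm (hpinj n m hn h)
  obtain ⟨B, hB⟩ := hfin2.bddAbove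
  set N' := max N (B + 1) with hN'
  have hlong : ∀ n, N' ≤ n → L + 2 < (p n).length := by
    intro n hn
    by_contra hcon
    have : n ≤ B := hB ⟨by omega, by omega⟩
    omega
  have hgrow : ∀ i, (p (N' + i)).length = (p N').length + 2 * i := by
    intro i
    induction i with
    | zero => simp
    | succ i ih =>
      have := claim2 (N' + i) (by omega) (by
        have := hlong (N' + (i + 1)) (by omega)
        rwa [← add_assoc] at this)
      rw [← add_assoc, this, ih]
      ring
  have h1 := hgrow (w.length + N' + 2)
  have h2 : p (N' + (w.length + N' + 2)) <+: ext z w (N' + (w.length + N' + 2) + 1) :=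
    hp _ (by omega)
  have h3 := h2.length_le
  rw [h1, ext_length] at h3
  omega

end Pool.Agent.R572.Defect
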