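import Pool.Agent.R572.DefectB

set_option autoImplicit false

/-!
Compactness and computability of the least defect of a left infinite extension.
-/

namespace Pool.Agent.R572.Defect

/-- `w` has a left infinite extension over its own letters, all of whose finite parts have
defect at most `k`. -/
def ELeft (w : List ℕ) (k : ℕ) : Prop :=
  ∃ z : ℕ → ℕ, (∀ i, z i ∈ w) ∧ ∀ n, cst (ext z w n) ≤ k

/-- `u` has arbitrarily long extensions to the left by letters of `w`, of defect at most `k`. -/
def Arb (w : List ℕ) (k : ℕ) (u : List ℕ) : Prop :=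
  ∀ n, ∃ e : List ℕ, e.length = n ∧ (∀ a ∈ e, a ∈ w) ∧ cst (e ++ u) ≤ k

theorem arb_step {w : List ℕ} {k : ℕ} {u : List ℕ} (h : Arb w k u) :
    ∃ a, a ∈ w ∧ Arb w k (a :: u) := by
  by_contra hcon
  push Not at hcon
  have h1 : ∀ a, ∃ n, a ∈ w → ¬ ∃ e : List ℕ, e.length = n ∧ (∀ b ∈ e, b ∈ w) ∧
      cst (e ++ a :: u) ≤ k := by
    intro a
    by_cases ha : a ∈ w
    · have := hcon a ha
      unfold Arb at this
      push Not at this
      obtain ⟨n, hn⟩ := this
      refine ⟨n, fun _ => ?_⟩
      rintro ⟨e, he1, he2, he3⟩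
      exact absurd he3 (not_le.2 (hn e he1 he2))
    · exact ⟨0, fun h => absurd h ha⟩
  choose f hf using h1
  obtain ⟨e, he1, he2, he3⟩ := h ((w.map f).sum + 1)
  have hne : e ≠ [] := by
    rintro rfl
    simp at he1
  obtain ⟨e', b, rfl⟩ : ∃ e' b, e = e' ++ [b] :=
    ⟨e.dropLast, e.getLast hne, (List.dropLast_append_getLast hne).symm⟩
  have hb : b ∈ w := he2 b (by simp)
  have hlen : f b ≤ e'.length := by
    have h2 : f b ≤ (w.map f).sum := List.le_sum_of_mem (List.mem_map_of_mem hb)
    simp at he1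
    omega
  apply hf b hb
  refine ⟨e'.drop (e'.length - f b), ?_, ?_, ?_⟩
  · rw [List.length_drop]; omega
  · intro c hc
    exact he2 c (by simp [List.mem_of_mem_drop hc])
  · refine le_trans (cst_mono ?_) he3
    have : e' ++ [b] ++ u = e'.take (e'.length - f b) ++ (e'.drop (e'.length - f b) ++ b :: u) := by
      rw [← List.append_assoc, List.take_append_drop]
      simp
    rw [this]
    exact (List.suffix_append _ _).isInfix

theorem eleft_of_arb {w : List ℕ} {k : ℕ} (h : Arb w k w) : ELeft w k := by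
  have hstep : ∀ s : {u : List ℕ // Arb w k u}, ∃ a, a ∈ w ∧ Arb w k (a :: s.1) :=
    fun s => arb_step s.2
  choose f hf1 hf2 using hstep
  let U : ℕ → {u : List ℕ // Arb w k u} := fun n =>
    Nat.rec ⟨w, h⟩ (fun _ s => ⟨f s :: s.1, hf2 s⟩) n
  refine ⟨fun n => f (U n), fun i => hf1 _, fun n => ?_⟩
  have hU : ∀ n, ext (fun n => f (U n)) w n = (U n).1 := by
    intro n
    induction n with
    | zero => rfl
    | succ n ih => rw [ext, ih]
  rw [hU n]
  obtain ⟨e, he1, -, he3⟩ := (U n).2 0
  have : e = [] := List.length_eq_zero_iff.1 he1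
  subst this
  simpa using he3

theorem arb_of_eleft {w : List ℕ} {k : ℕ} (h : ELeft w k) : Arb w k w := by
  obtain ⟨z, hz, hk⟩ := h
  intro n
  obtain ⟨e, he⟩ := ext_suffix z w (Nat.zero_le n)
  have he' : e ++ w = ext z w n := he
  refine ⟨e, ?_, ?_, ?_⟩
  · have := congrArg List.length he'
    rw [List.length_append, ext_length] at this
    omega
  · intro a ha
    apply ext_mem z w hz n
    rw [← he']
    simp [ha]
  · rw [he']; exact hk n

theorem arb_of_cert {w : List ℕ} {k : ℕ} {A P v : List ℕ} (h : Cert A P v)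
    (hw : w <:+ (A ++ P ++ v)) (hk : cst (A ++ P ++ v) ≤ k) (hm : ∀ a ∈ A ++ P ++ v, a ∈ w) :
    Arb w k w := by
  intro n
  obtain ⟨s, hs⟩ := hw
  set E := (List.replicate n A).flatten ++ s with hE
  have hA : 1 ≤ A.length := by
    rcases A with _ | ⟨a, A⟩
    · exact absurd rfl h.1
    · simp
  have hEl : n ≤ E.length := by
    rw [hE, List.length_append, List.length_flatten]
    simp
    nlinarith
  have hc : cst (E ++ w) ≤ k := by
    rw [hE, List.append_assoc, hs, cst_iter h]
    exact hk
  refine ⟨E.drop (E.length - n), ?_, ?_, ?_⟩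
  · rw [List.length_drop]; omega
  · intro a ha
    have ha := List.mem_of_mem_drop ha
    rw [hE, List.mem_append, List.mem_flatten] at ha
    apply hm
    rcases ha with ⟨l, hl, ha⟩ | ha
    · rw [List.eq_of_mem_replicate hl] at ha
      simp [ha]
    · rw [← hs]
      simp [ha]
  · refine le_trans (cst_mono ?_) hc
    refine ⟨E.take (E.length - n), [], ?_⟩
    rw [List.append_nil, ← List.append_assoc, List.take_append_drop]

/-- The condition on a word `u` and the lengths `a`, `p` of `A`, `P`. -/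
def Cond (u : List ℕ) (a p : ℕ) : Prop :=
  a ≠ 0 ∧ p ≠ 0 ∧ a + p ≤ u.length ∧ ((u.drop a).take p).reverse = (u.drop a).take p ∧
    (u.take (a + p)).reverse = u.take (a + p) ∧
    ∀ j < u.length + 1, (u.drop j).take p = (u.drop a).take p → j = 0 ∨ j = a

theorem cond_iff (u : List ℕ) : (∃ a < u.length + 1, ∃ p < u.length + 1, Cond u a p) ↔
    ∃ A P v, Cert A P v ∧ u = A ++ P ++ v := by
  constructor
  · rintro ⟨a, -, p, -, ha, hp, hap, h1, h2, h3⟩
    have e1 : u.take a ++ (u.drop a).take p = u.take (a + p) := by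
      rw [List.take_add]
    have e2 : u = u.take a ++ (u.drop a).take p ++ u.drop (a + p) := by
      rw [e1, List.take_append_drop]
    have hal : (u.take a).length = a := by rw [List.length_take]; omega
    have hpl : ((u.drop a).take p).length = p := by
      rw [List.length_take, List.length_drop]; omega
    refine ⟨u.take a, (u.drop a).take p, u.drop (a + p), ⟨?_, h1, ?_, ?_⟩, e2⟩
    · intro h
      rw [h] at hal
      simp at hal
      omega
    · rw [e1]; exact h2
    · intro j hj
      rw [← e2] at hj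
      rw [hal]
      have hju : j < u.length + 1 := by
        by_contra hcon
        have h0 : u.drop j = [] := List.drop_of_length_le (by omega)
        rw [h0, List.prefix_nil] at hj
        rw [hj] at hpl
        simp at hpl
        omega
      apply h3 j hju
      rw [List.prefix_iff_eq_take, hpl] at hj
      exact hj.symm
  · rintro ⟨A, P, v, ⟨hA, hP, hAP, h2⟩, rfl⟩
    have hPne : P ≠ [] := by
      rintro rfl
      rcases h2 (A.length + 1) (List.nil_prefix) with h | h <;> omega
    have hA' : A.length ≠ 0 := fun h => hA (List.length_eq_zero_iff.1 h)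
    have hP' : P.length ≠ 0 := fun h => hPne (List.length_eq_zero_iff.1 h)
    have e1 : ((A ++ P ++ v).drop A.length).take P.length = P := by
      rw [List.append_assoc, List.drop_left, List.take_left]
    have e2 : (A ++ P ++ v).take (A.length + P.length) = A ++ P := by
      rw [← List.length_append, List.take_left]
    have hl : (A ++ P ++ v).length = A.length + P.length + v.length := by
      rw [List.length_append, List.length_append]
    refine ⟨A.length, by omega, P.length, by omega, hA', hP', by omega, ?_, ?_, ?_⟩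
    · rw [e1]; exact hP
    · rw [e2]; exact hAP
    · intro j _ hj
      rw [e1] at hj
      apply h2 j
      rw [List.prefix_iff_eq_take]
      exact hj.symm

/-- The words of length `n` over the letters of `w`. -/
def words (w : List ℕ) : ℕ → List (List ℕ)
  | 0 => [[]]
  | n + 1 => (words w n).flatMap (fun e => w.map (fun a => a :: e))

theorem mem_words (w : List ℕ) (n : ℕ) (e : List ℕ) :
    e ∈ words w n ↔ e.length = n ∧ ∀ a ∈ e, a ∈ w := by
  induction n generalizing e with
  | zero =>
    simp only [words, List.mem_singleton]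
    constructor
    · rintro rfl; simp
    · rintro ⟨h, -⟩; exact List.length_eq_zero_iff.1 h
  | succ n ih =>
    simp only [words, List.mem_flatMap, List.mem_map, ih]
    constructor
    · rintro ⟨e', ⟨h1, h2⟩, a, ha, rfl⟩
      refine ⟨by simp [h1], ?_⟩
      intro b hb
      rcases List.mem_cons.1 hb with rfl | hb
      · exact ha
      · exact h2 b hb
    · rintro ⟨h1, h2⟩
      rcases e with _ | ⟨a, e⟩
      · simp at h1
      · exact ⟨e, ⟨by simpa using h1, fun b hb => h2 b (by simp [hb])⟩, a, h2 a (by simp), rfl⟩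

theorem eleft_iff_cert (w : List ℕ) (k : ℕ) : ELeft w k ↔
    ∃ n, ∃ e ∈ words w n, cst (e ++ w) ≤ k ∧
      ∃ a < (e ++ w).length + 1, ∃ p < (e ++ w).length + 1, Cond (e ++ w) a p := by
  constructor
  · rintro ⟨z, hz, hk⟩
    obtain ⟨A, P, v, h1, ⟨e, he⟩, h3, h4⟩ := exists_cert w z k hz hk
    refine ⟨e.length, e, (mem_words _ _ _).2 ⟨rfl, fun a ha => h4 a ?_⟩, ?_, ?_⟩
    · rw [← he]; simp [ha]
    · rw [he]; exact h3
    · exact (cond_iff _).2 ⟨A, P, v, h1, he⟩
  · rintro ⟨n, e, he, h1, h2⟩
    obtain ⟨A, P, v, h3, h4⟩ := (cond_iff _).1 h2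
    apply eleft_of_arb
    refine arb_of_cert h3 ⟨e, h4⟩ (by rw [← h4]; exact h1) ?_
    intro a ha
    rw [← h4, List.mem_append] at ha
    rcases ha with ha | ha
    · exact ((mem_words _ _ _).1 he).2 a ha
    · exact ha

theorem not_eleft_iff (w : List ℕ) (k : ℕ) : ¬ ELeft w k ↔
    ∃ n, ∀ e ∈ words w n, ¬ cst (e ++ w) ≤ k := by
  constructor
  · intro h
    by_contra hcon
    push Not at hcon
    apply h
    apply eleft_of_arb
    intro n
    obtain ⟨e, he1, he2⟩ := hcon n
    exact ⟨e, ((mem_words _ _ _).1 he1).1, ((mem_words _ _ _).1 he1).2, he2⟩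
  · rintro ⟨n, hn⟩ h
    obtain ⟨e, he1, he2, he3⟩ := arb_of_eleft h n
    exact hn e ((mem_words _ _ _).2 ⟨he1, he2⟩) he3

theorem new_iff (a : ℕ) (u : List ℕ) : New a u ↔
    ∃ i < u.length + 2, ((a :: u).take i).reverse = (a :: u).take i ∧
      ∀ j < u.length + 1, ¬ (u.drop j).take i = (a :: u).take i := by
  constructor
  · rintro ⟨p, hp, hpp, hpn⟩
    have hpt := List.prefix_iff_eq_take.1 hp
    have hl := hp.length_le
    refine ⟨p.length, by simp at hl; omega, ?_, ?_⟩
    · rw [← hpt]; exact hpp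
    · intro j _ hj
      apply hpn
      rw [← hpt] at hj
      rw [← hj]
      exact ((List.take_prefix _ _).isInfix).trans (List.drop_suffix _ _).isInfix
  · rintro ⟨i, hi, h1, h2⟩
    refine ⟨(a :: u).take i, List.take_prefix _ _, h1, ?_⟩
    intro h
    obtain ⟨j, hj⟩ := infix_drop h
    have hlen : ((a :: u).take i).length = i := by
      rw [List.length_take]; simp; omega
    rw [List.prefix_iff_eq_take, hlen] at hj
    rcases lt_or_ge j (u.length + 1) with h3 | h3
    · exact h2 j h3 hj.symm
    · rw [List.drop_of_length_le (by omega)] at hj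
      have : i = 0 := by
        rw [hj] at hlen
        simpa using hlen.symm
      subst this
      exact h2 0 (by omega) (by simp)

section Prim

open Primrec

theorem pp_ex {α : Type*} [Primcodable α] {f : α → ℕ} {R : ℕ → α → Prop} (hf : Primrec f)
    (hR : PrimrecPred (fun p : ℕ × α => R p.1 p.2)) : PrimrecPred (fun a => ∃ x < f a, R x a) := by
  have h1 : PrimrecRel (fun (L : List ℕ) (a : α) => ∃ x ∈ L, R x a) :=
    PrimrecRel.exists_mem_list (R := R) hR
  have h2 := PrimrecRel.comp h1 (Primrec.list_range.comp hf) Primrec.id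
  exact h2.of_eq (fun a => by simp)

theorem pp_all {α : Type*} [Primcodable α] {f : α → ℕ} {R : ℕ → α → Prop} (hf : Primrec f)
    (hR : PrimrecPred (fun p : ℕ × α => R p.1 p.2)) : PrimrecPred (fun a => ∀ x < f a, R x a) := by
  have h1 : PrimrecRel (fun (L : List ℕ) (a : α) => ∀ x ∈ L, R x a) :=
    PrimrecRel.forall_mem_list (R := R) hR
  have h2 := PrimrecRel.comp h1 (Primrec.list_range.comp hf) Primrec.id
  exact h2.of_eq (fun a => by simp)

theorem pp_new : PrimrecPred (fun q : ℕ × List ℕ => New q.1 q.2) := by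
  have hlist : Primrec (fun r : ℕ × ℕ × List ℕ => (r.2.1 :: r.2.2)) :=
    Primrec.list_cons.comp (fst.comp snd) (snd.comp snd)
  have htake : Primrec (fun r : ℕ × ℕ × List ℕ => (r.2.1 :: r.2.2).take r.1) :=
    Primrec.list_take.comp fst hlist
  have h1 : PrimrecPred (fun r : ℕ × ℕ × List ℕ =>
      ((r.2.1 :: r.2.2).take r.1).reverse = (r.2.1 :: r.2.2).take r.1) :=
    Primrec.eq.comp (Primrec.list_reverse.comp htake) htake
  have h2 : PrimrecPred (fun r : ℕ × ℕ × List ℕ => ∀ j < r.2.2.length + 1,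
      ¬ (r.2.2.drop j).take r.1 = (r.2.1 :: r.2.2).take r.1) := by
    refine pp_all (f := fun r : ℕ × ℕ × List ℕ => r.2.2.length + 1)
      (R := fun j r => ¬ (r.2.2.drop j).take r.1 = (r.2.1 :: r.2.2).take r.1)
      (Primrec.succ.comp (Primrec.list_length.comp (snd.comp snd))) ?_
    refine PrimrecPred.not (Primrec.eq.comp ?_ (htake.comp snd))
    exact Primrec.list_take.comp (fst.comp snd)
      (Primrec.list_drop.comp fst (snd.comp (snd.comp snd)))
  have h3 : PrimrecPred (fun q : ℕ × List ℕ => ∃ i < q.2.length + 2,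
      ((q.1 :: q.2).take i).reverse = (q.1 :: q.2).take i ∧
      ∀ j < q.2.length + 1, ¬ (q.2.drop j).take i = (q.1 :: q.2).take i) := by
    refine pp_ex (f := fun q : ℕ × List ℕ => q.2.length + 2)
      (R := fun i q => ((q.1 :: q.2).take i).reverse = (q.1 :: q.2).take i ∧
      ∀ j < q.2.length + 1, ¬ (q.2.drop j).take i = (q.1 :: q.2).take i)
      (Primrec.succ.comp (Primrec.succ.comp (Primrec.list_length.comp snd))) ?_
    exact h1.and h2
  exact h3.of_eq (fun q => (new_iff q.1 q.2).symm)

theorem prim_cst : Primrec cst := by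
  classical
  have h : Primrec (fun l : List ℕ => (List.recOn l (0 : ℕ)
      (fun a u (IH : ℕ) => IH + if New a u then 0 else 1) : ℕ)) := by
    refine Primrec.list_rec (f := fun l : List ℕ => l) (g := fun _ => (0 : ℕ))
      (h := fun _ r => r.2.2 + if New r.1 r.2.1 then 0 else 1) Primrec.id (Primrec.const 0) ?_
    refine Primrec.nat_add.comp (snd.comp (snd.comp snd)) ?_
    refine Primrec.ite ?_ (Primrec.const 0) (Primrec.const 1)
    exact pp_new.comp (Primrec.pair (fst.comp snd) (fst.comp (snd.comp snd)))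
  refine h.of_eq (fun l => ?_)
  induction l with
  | nil => rfl
  | cons a u ih =>
    rw [cst, ← ih]

theorem prim_words : Primrec₂ words := by
  have h : Primrec₂ (fun (w : List ℕ) (n : ℕ) => (Nat.rec [[]]
      (fun _ IH => IH.flatMap (fun e => w.map (fun a => a :: e))) n : List (List ℕ))) := by
    refine Primrec.nat_rec (f := fun _ : List ℕ => ([[]] : List (List ℕ)))
      (g := fun w r => r.2.flatMap (fun e => w.map (fun a => a :: e))) (Primrec.const _) ?_
    refine Primrec.list_flatMap (snd.comp snd) ?_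
    refine Primrec.list_map (fst.comp fst) ?_
    exact Primrec.list_cons.comp snd (snd.comp fst)
  refine h.of_eq (fun w n => ?_)
  induction n with
  | zero => rfl
  | succ n ih => rw [words, ← ih]

theorem pp_cond : PrimrecPred (fun q : List ℕ × ℕ × ℕ => Cond q.1 q.2.1 q.2.2) := by
  have ha : Primrec (fun q : List ℕ × ℕ × ℕ => q.2.1) := fst.comp snd
  have hp : Primrec (fun q : List ℕ × ℕ × ℕ => q.2.2) := snd.comp snd
  have hP : Primrec (fun q : List ℕ × ℕ × ℕ => (q.1.drop q.2.1).take q.2.2) :=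
    Primrec.list_take.comp hp (Primrec.list_drop.comp ha fst)
  have hAP : Primrec (fun q : List ℕ × ℕ × ℕ => q.1.take (q.2.1 + q.2.2)) :=
    Primrec.list_take.comp (Primrec.nat_add.comp ha hp) fst
  refine PrimrecPred.and (PrimrecPred.not (Primrec.eq.comp ha (Primrec.const 0))) ?_
  refine PrimrecPred.and (PrimrecPred.not (Primrec.eq.comp hp (Primrec.const 0))) ?_
  refine PrimrecPred.and (Primrec.nat_le.comp (Primrec.nat_add.comp ha hp)
    (Primrec.list_length.comp fst)) ?_
  refine PrimrecPred.and (Primrec.eq.comp (Primrec.list_reverse.comp hP) hP) ?_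
  refine PrimrecPred.and (Primrec.eq.comp (Primrec.list_reverse.comp hAP) hAP) ?_
  refine pp_all (f := fun q : List ℕ × ℕ × ℕ => q.1.length + 1)
    (R := fun j q => (q.1.drop j).take q.2.2 = (q.1.drop q.2.1).take q.2.2 → j = 0 ∨ j = q.2.1)
    (Primrec.succ.comp (Primrec.list_length.comp fst)) ?_
  have h1 : PrimrecPred (fun r : ℕ × List ℕ × ℕ × ℕ =>
      (r.2.1.drop r.1).take r.2.2.2 = (r.2.1.drop r.2.2.1).take r.2.2.2) :=
    Primrec.eq.comp (Primrec.list_take.comp (hp.comp snd)
      (Primrec.list_drop.comp fst (fst.comp snd))) (hP.comp snd)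
  have h2 : PrimrecPred (fun r : ℕ × List ℕ × ℕ × ℕ => r.1 = 0 ∨ r.1 = r.2.2.1) :=
    PrimrecPred.or (Primrec.eq.comp fst (Primrec.const 0)) (Primrec.eq.comp fst (ha.comp snd))
  exact (PrimrecPred.or h1.not h2).of_eq (fun r => by tauto)

/-- The searched condition. -/
def Srch (wk : List ℕ × ℕ) (n : ℕ) : Prop :=
  ∃ e ∈ words wk.1 n, cst (e ++ wk.1) ≤ wk.2 ∧
      ∃ a < (e ++ wk.1).length + 1, ∃ p < (e ++ wk.1).length + 1, Cond (e ++ wk.1) a p

/-- The refuting condition. -/
def Refu (wk : List ℕ × ℕ) (n : ℕ) : Prop :=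
  ∀ e ∈ words wk.1 n, ¬ cst (e ++ wk.1) ≤ wk.2

theorem pp_le : PrimrecPred (fun r : List ℕ × (List ℕ × ℕ) => cst (r.1 ++ r.2.1) ≤ r.2.2) :=
  Primrec.nat_le.comp (prim_cst.comp (Primrec.list_append.comp fst (fst.comp snd)))
    (snd.comp snd)

theorem pp_refu : PrimrecPred (fun q : (List ℕ × ℕ) × ℕ => Refu q.1 q.2) := by
  have h1 : PrimrecRel (fun (L : List (List ℕ)) (wk : List ℕ × ℕ) =>
      ∀ e ∈ L, ¬ cst (e ++ wk.1) ≤ wk.2) :=
    PrimrecRel.forall_mem_list (R := fun (e : List ℕ) (wk : List ℕ × ℕ) =>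
      ¬ cst (e ++ wk.1) ≤ wk.2) pp_le.not
  have h2 : PrimrecPred (fun q : (List ℕ × ℕ) × ℕ =>
      ∀ e ∈ words q.1.1 q.2, ¬ cst (e ++ q.1.1) ≤ q.1.2) :=
    PrimrecRel.comp h1 (prim_words.comp (fst.comp fst) snd) fst
  exact h2

theorem pp_srch : PrimrecPred (fun q : (List ℕ × ℕ) × ℕ => Srch q.1 q.2) := by
  have h2 : PrimrecPred (fun u : List ℕ => ∃ a < u.length + 1, ∃ p < u.length + 1, Cond u a p) := by
    refine pp_ex (f := fun u : List ℕ => u.length + 1)
      (R := fun a u => ∃ p < u.length + 1, Cond u a p)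
      (Primrec.succ.comp Primrec.list_length) ?_
    refine pp_ex (f := fun r : ℕ × List ℕ => r.2.length + 1)
      (R := fun p r => Cond r.2 r.1 p)
      (Primrec.succ.comp (Primrec.list_length.comp snd)) ?_
    exact pp_cond.comp (Primrec.pair (snd.comp snd) (Primrec.pair (fst.comp snd) fst))
  have h3 : PrimrecPred (fun r : List ℕ × (List ℕ × ℕ) => cst (r.1 ++ r.2.1) ≤ r.2.2 ∧
      ∃ a < (r.1 ++ r.2.1).length + 1, ∃ p < (r.1 ++ r.2.1).length + 1,
        Cond (r.1 ++ r.2.1) a p) :=
    pp_le.and (h2.comp (Primrec.list_append.comp fst (fst.comp snd)))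
  have h1 := PrimrecRel.exists_mem_list (R := fun (e : List ℕ) (wk : List ℕ × ℕ) =>
      cst (e ++ wk.1) ≤ wk.2 ∧
      ∃ a < (e ++ wk.1).length + 1, ∃ p < (e ++ wk.1).length + 1, Cond (e ++ wk.1) a p) h3
  have h4 : PrimrecPred (fun q : (List ℕ × ℕ) × ℕ =>
      ∃ e ∈ words q.1.1 q.2, cst (e ++ q.1.1) ≤ q.1.2 ∧
      ∃ a < (e ++ q.1.1).length + 1, ∃ p < (e ++ q.1.1).length + 1, Cond (e ++ q.1.1) a p) :=
    PrimrecRel.comp h1 (prim_words.comp (fst.comp fst) snd) fst
  exact h4

end Prim

/-- Search turns a computable relation into a recursively enumerable predicate. -/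
theorem re_exists {α : Type*} [Primcodable α] {R : α → ℕ → Prop}
    (hR : ComputablePred (fun p : α × ℕ => R p.1 p.2)) : REPred (fun a => ∃ n, R a n) := by
  classical
  have h : Partrec (fun x ↦ Nat.rfind fun n => Part.some (decide (R x n))) :=
    Partrec.rfind hR.decide.partrec
  refine h.dom_re.of_eq (fun a => ?_)
  rw [Nat.rfind_dom]
  simp

theorem eleft_computable : ComputablePred (fun q : List ℕ × ℕ => ELeft q.1 q.2) := by
  rw [ComputablePred.computable_iff_re_compl_re']
  constructor
  · refine (re_exists (R := Srch) pp_srch.computablePred).of_eq (fun q => ?_)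
    exact (eleft_iff_cert q.1 q.2).symm
  · refine (re_exists (R := Refu) pp_refu.computablePred).of_eq (fun q => ?_)
    exact (not_eleft_iff q.1 q.2).symm

end Pool.Agent.R572.Defect
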