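import Mathlib

/-! # Counting separated sets of Hoelder maps of the interval -/

set_option autoImplicit false

namespace Pool.Agent.R572.Hoelder

open Filter Topology
open scoped unitInterval ENNReal

/-- a finite set of naturals with differences at most `m` has at most `m + 1` elements -/
theorem card_le_of_diff (F : Finset ℕ) (m : ℕ) (h : ∀ a ∈ F, ∀ b ∈ F, b ≤ a + m) :
    F.card ≤ m + 1 := by
  rcases F.eq_empty_or_nonempty with rfl | hne
  · simp
  · have h1 : F ⊆ Finset.Icc (F.min' hne) (F.min' hne + m) := by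
      intro b hb
      rw [Finset.mem_Icc]
      exact ⟨F.min'_le b hb, h _ (F.min'_mem hne) b hb⟩
    refine (Finset.card_le_card h1).trans ?_
    rw [Nat.card_Icc]; omega

/-- the cell of a point, `N` cells per unit length -/
noncomputable def cell (N : ℕ) (x : I) : ℕ := ⌊(N : ℝ) * (x : ℝ)⌋₊

theorem cell_le (N : ℕ) (x : I) : cell N x ≤ N := by
  unfold cell
  refine Nat.floor_le_of_le ?_
  have := x.2.2
  nlinarith [Nat.cast_nonneg (α := ℝ) N]

theorem abs_sub_lt_of_cell_eq {N : ℕ} {x y : I} (h : cell N x = cell N y) :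
    (N : ℝ) * |(x : ℝ) - y| < 1 := by
  have hx0 : 0 ≤ (N : ℝ) * (x : ℝ) := mul_nonneg (Nat.cast_nonneg _) x.2.1
  have hy0 : 0 ≤ (N : ℝ) * (y : ℝ) := mul_nonneg (Nat.cast_nonneg _) y.2.1
  have h1 := Nat.floor_le hx0
  have h2 := Nat.lt_floor_add_one ((N : ℝ) * (x : ℝ))
  have h3 := Nat.floor_le hy0
  have h4 := Nat.lt_floor_add_one ((N : ℝ) * (y : ℝ))
  unfold cell at h
  rw [h] at h1 h2
  have h5 : (N : ℝ) * |(x : ℝ) - y| = |(N : ℝ) * x - N * y| := by
    rw [← mul_sub, abs_mul, abs_of_nonneg (Nat.cast_nonneg (α := ℝ) N)]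
  rw [h5, abs_lt]
  constructor <;> linarith

theorem cell_le_add {N : ℕ} {x y : I} {m : ℕ} (h : (N : ℝ) * |(x : ℝ) - y| < m) :
    cell N x ≤ cell N y + m := by
  have hx0 : 0 ≤ (N : ℝ) * (x : ℝ) := mul_nonneg (Nat.cast_nonneg _) x.2.1
  have h1 := Nat.floor_le hx0
  have h4 := Nat.lt_floor_add_one ((N : ℝ) * (y : ℝ))
  have h5 : (N : ℝ) * |(x : ℝ) - y| = |(N : ℝ) * x - N * y| := by
    rw [← mul_sub, abs_mul, abs_of_nonneg (Nat.cast_nonneg (α := ℝ) N)]
  rw [h5] at h
  have h6 := (abs_lt.1 h).2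
  have h7 : ((cell N x : ℕ) : ℝ) < cell N y + m + 1 := by
    unfold cell; linarith
  have h8 : cell N x < cell N y + m + 1 := by exact_mod_cast h7
  omega

/-- the itinerary of length `n` -/
noncomputable def itin (φ : I → I) (N n : ℕ) (x : I) : Fin n → ℕ := fun j => cell N (φ^[j] x)

theorem card_itin (φ : I → I) (N m : ℕ)
    (h : ∀ x y : I, cell N x = cell N y → cell N (φ y) ≤ cell N (φ x) + m)
    (A : Finset I) (n : ℕ) :
    (A.image (itin φ N (n + 1))).card ≤ (N + 1) * (m + 1) ^ n := by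
  classical
  induction n with
  | zero =>
    have h1 : (A.image (itin φ N 1)) ⊆ (Finset.range (N + 1)).image (fun a => fun _ : Fin 1 => a) := by
      intro g hg
      obtain ⟨x, _, rfl⟩ := Finset.mem_image.1 hg
      rw [Finset.mem_image]
      refine ⟨cell N x, Finset.mem_range.2 (Nat.lt_succ_of_le (cell_le N x)), ?_⟩
      funext j
      have : (j : ℕ) = 0 := by omega
      simp [itin, this]
    refine (Finset.card_le_card h1).trans ?_
    refine Finset.card_image_le.trans ?_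
    simp
  | succ n ih =>
    set s := A.image (itin φ N (n + 2)) with hs
    have h1 : s.card ≤ (m + 1) * (s.image (fun g => Fin.init g)).card := by
      refine Finset.card_le_mul_card_image _ _ ?_
      intro b hb
      have h2 : (s.filter (fun g => Fin.init g = b)).card ≤
          ((s.filter (fun g => Fin.init g = b)).image (fun g => g (Fin.last (n + 1)))).card := by
        rw [Finset.card_image_of_injOn]
        intro g hg g' hg' hgg
        have e1 : Fin.init g = b := (Finset.mem_filter.1 (Finset.mem_coe.1 hg)).2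
        have e2 : Fin.init g' = b := (Finset.mem_filter.1 (Finset.mem_coe.1 hg')).2
        rw [← Fin.snoc_init_self g, ← Fin.snoc_init_self g', e1, e2]
        simp only at hgg
        rw [hgg]
      refine h2.trans (card_le_of_diff _ m ?_)
      intro a ha c hc
      obtain ⟨g, hg, rfl⟩ := Finset.mem_image.1 ha
      obtain ⟨g', hg', rfl⟩ := Finset.mem_image.1 hc
      obtain ⟨hgs, hgi⟩ := Finset.mem_filter.1 hg
      obtain ⟨hgs', hgi'⟩ := Finset.mem_filter.1 hg'
      obtain ⟨x, _, rfl⟩ := Finset.mem_image.1 hgs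
      obtain ⟨y, _, rfl⟩ := Finset.mem_image.1 hgs'
      have h3 : cell N (φ^[n] x) = cell N (φ^[n] y) := by
        have := congrFun (hgi.trans hgi'.symm) (Fin.last n)
        simpa [Fin.init, itin] using this
      have h4 := h _ _ h3
      simp only [itin, Fin.val_last, Function.iterate_succ_apply'] at h4 ⊢
      exact h4
    have h5 : s.image (fun g => Fin.init g) = A.image (itin φ N (n + 1)) := by
      rw [hs, Finset.image_image]
      congr 1
    rw [h5] at h1
    refine h1.trans ?_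
    calc (m + 1) * (A.image (itin φ N (n + 1))).card
        ≤ (m + 1) * ((N + 1) * (m + 1) ^ n) := Nat.mul_le_mul_left _ ih
      _ = (N + 1) * (m + 1) ^ (n + 1) := by ring

/-- separated sets of a Hoelder map are small -/
theorem card_sep (φ : I → I) (K α : ℝ) (hK : 0 < K) (hα0 : 0 < α) (hα1 : α ≤ 1)
    (h : ∀ x y : I, |(φ x : ℝ) - φ y| ≤ K * |(x : ℝ) - y| ^ α)
    (ε : ℝ) (hε0 : 0 < ε) (hε1 : ε < 1) (n : ℕ) (A : Finset I)
    (hA : ∀ x ∈ A, ∀ y ∈ A, x ≠ y → ∃ j < n, ε < |((φ^[j] x : I) : ℝ) - φ^[j] y|) :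
    (A.card : ℝ) ≤ (3 / ε) * (K * (2 / ε) ^ (1 - α) + 2) ^ n := by
  classical
  set N : ℕ := ⌈1 / ε⌉₊ with hN
  have hN1 : 1 / ε ≤ N := Nat.le_ceil _
  have hN2 : (N : ℝ) < 1 / ε + 1 := Nat.ceil_lt_add_one (by positivity)
  have h1ε : 1 < 1 / ε := by rw [lt_div_iff₀ hε0]; linarith
  have hN3 : (N : ℝ) ≤ 2 / ε := by
    have : 2 / ε = 1 / ε + 1 / ε := by ring
    linarith
  have hNpos : (0 : ℝ) < N := by linarith
  set m : ℕ := ⌊K * (N : ℝ) ^ (1 - α)⌋₊ + 1 with hm
  have hB0 : 0 ≤ K * (N : ℝ) ^ (1 - α) := by positivity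
  have hcell : ∀ x y : I, cell N x = cell N y → cell N (φ y) ≤ cell N (φ x) + m := by
    intro x y hxy
    apply cell_le_add
    have h1 := abs_sub_lt_of_cell_eq hxy.symm
    have h2 : |(y : ℝ) - x| ≤ (N : ℝ)⁻¹ := by
      rw [← one_div, le_div_iff₀ hNpos]; linarith
    have h3 : |(y : ℝ) - x| ^ α ≤ ((N : ℝ)⁻¹) ^ α :=
      Real.rpow_le_rpow (abs_nonneg _) h2 hα0.le
    have h4 : (N : ℝ) * |(φ y : ℝ) - φ x| ≤ K * (N : ℝ) ^ (1 - α) := by
      calc (N : ℝ) * |(φ y : ℝ) - φ x| ≤ N * (K * ((N : ℝ)⁻¹) ^ α) := by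
            gcongr
            exact (h y x).trans (by gcongr)
        _ = K * (N : ℝ) ^ (1 - α) := by
            rw [Real.inv_rpow hNpos.le, Real.rpow_sub hNpos, Real.rpow_one]
            field_simp
    refine h4.trans_lt ?_
    rw [hm]; push_cast
    exact Nat.lt_floor_add_one _
  rcases n with _ | n
  · have : A.card ≤ 1 := by
      rw [Finset.card_le_one]
      intro a ha b hb
      by_contra hab
      obtain ⟨j, hj, _⟩ := hA a ha b hb hab
      omega
    have h2 : (A.card : ℝ) ≤ 1 := by exact_mod_cast this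
    have h3 : 1 ≤ 3 / ε := by rw [le_div_iff₀ hε0]; linarith
    simp only [pow_zero, mul_one]
    linarith
  · have hinj : (A.image (itin φ N (n + 1))).card = A.card := by
      apply Finset.card_image_of_injOn
      intro x hx y hy hxy
      by_contra hne
      obtain ⟨j, hj, hj2⟩ := hA x hx y hy hne
      have h1 := congrFun hxy ⟨j, hj⟩
      simp only [itin] at h1
      have h2 := abs_sub_lt_of_cell_eq h1
      have h3 : 1 ≤ (N : ℝ) * ε := by
        rw [div_le_iff₀ hε0] at hN1; linarith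
      have h4 : (N : ℝ) * ε ≤ N * |((φ^[j] x : I) : ℝ) - φ^[j] y| := by gcongr
      linarith
    have h1 := card_itin φ N m hcell A n
    rw [hinj] at h1
    have h2 : (A.card : ℝ) ≤ (N + 1) * (m + 1) ^ n := by exact_mod_cast h1
    refine h2.trans ?_
    have h3 : ((N : ℝ) + 1) ≤ 3 / ε := by
      have : 3 / ε = 2 / ε + 1 / ε := by ring
      linarith
    have h4 : ((m : ℝ) + 1) ≤ K * (2 / ε) ^ (1 - α) + 2 := by
      have h5 : (⌊K * (N : ℝ) ^ (1 - α)⌋₊ : ℝ) ≤ K * (N : ℝ) ^ (1 - α) := Nat.floor_le hB0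
      have h6 : (N : ℝ) ^ (1 - α) ≤ (2 / ε) ^ (1 - α) :=
        Real.rpow_le_rpow hNpos.le hN3 (by linarith)
      have h7 : K * (N : ℝ) ^ (1 - α) ≤ K * (2 / ε) ^ (1 - α) := by gcongr
      rw [hm]; push_cast; linarith
    have h5 : (1 : ℝ) ≤ (m : ℝ) + 1 := by linarith [Nat.cast_nonneg (α := ℝ) m]
    calc ((N : ℝ) + 1) * ((m : ℝ) + 1) ^ n ≤ (3 / ε) * ((m : ℝ) + 1) ^ (n + 1) := by
          refine mul_le_mul h3 ?_ (by positivity) (by positivity)
          exact pow_le_pow_right₀ h5 (Nat.le_succ n)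
      _ ≤ _ := by gcongr

/-- growth rate of a sequence bounded by an exponential -/
theorem limsup_log_le (s : ℕ → ℕ∞) (a B : ℝ) (ha : 1 ≤ a) (hB : 1 ≤ B)
    (h : ∀ n, ((s n : ℕ∞) : ℝ≥0∞) ≤ ENNReal.ofReal (a * B ^ n)) :
    limsup (fun n : ℕ => ENNReal.log (s n : ℝ≥0∞) / (n : EReal)) atTop ≤ (Real.log B : EReal) := by
  have h1 : ∀ᶠ n : ℕ in atTop, ENNReal.log (s n : ℝ≥0∞) / (n : EReal) ≤
      ((Real.log a / n + Real.log B : ℝ) : EReal) := by
    filter_upwards [eventually_gt_atTop 0] with n hn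
    have hn' : (0 : ℝ) < n := by exact_mod_cast hn
    have hpos : 0 < a * B ^ n := by positivity
    have h2 : ENNReal.log (s n : ℝ≥0∞) ≤ (Real.log (a * B ^ n) : EReal) := by
      rw [← ENNReal.log_ofReal_of_pos hpos]
      exact ENNReal.log_le_log (h n)
    rw [EReal.div_le_iff_le_mul (by exact_mod_cast hn) (EReal.natCast_ne_top n)]
    refine h2.trans ?_
    have h3 : ((n : ℕ) : EReal) = ((n : ℝ) : EReal) := by simp
    rw [h3, ← EReal.coe_mul, EReal.coe_le_coe_iff, Real.log_mul (by positivity) (by positivity),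
      Real.log_pow]
    apply le_of_eq
    field_simp
  refine (limsup_le_limsup h1).trans ?_
  have h4 : Tendsto (fun n : ℕ => ((Real.log a / n + Real.log B : ℝ) : EReal)) atTop
      (𝓝 ((Real.log B : ℝ) : EReal)) := by
    rw [EReal.tendsto_coe]
    have := (tendsto_const_div_atTop_nhds_zero_nat (Real.log a)).add_const (Real.log B)
    simpa using this
  rw [h4.limsup_eq]

/-- the rate of growth in terms of the scale -/
theorem limsup_scale_le (r : ℝ → EReal) (K α : ℝ) (hK : 0 < K) (hα1 : α ≤ 1)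
    (h : ∀ ε : ℝ, 0 < ε → ε < 1 → r ε ≤ (Real.log (K * (2 / ε) ^ (1 - α) + 2) : EReal)) :
    limsup (fun ε : ℝ => r ε / ((|Real.log ε| : ℝ) : EReal)) (𝓝[>] 0) ≤ ((1 - α : ℝ) : EReal) := by
  set C : ℝ := K * 2 ^ (1 - α) + 2 with hC
  have hCpos : 0 < C := by positivity
  have h1 : ∀ᶠ ε : ℝ in 𝓝[>] 0, r ε / ((|Real.log ε| : ℝ) : EReal) ≤
      ((Real.log C / |Real.log ε| + (1 - α) : ℝ) : EReal) := by
    filter_upwards [Ioo_mem_nhdsGT (show (0 : ℝ) < 1 by norm_num)] with ε hε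
    obtain ⟨hε0, hε1⟩ := hε
    have hlog : Real.log ε < 0 := Real.log_neg hε0 hε1
    have habs : |Real.log ε| = - Real.log ε := abs_of_neg hlog
    have hpos : 0 < |Real.log ε| := by rw [habs]; linarith
    rw [EReal.div_le_iff_le_mul (by exact_mod_cast hpos) (EReal.coe_ne_top _)]
    refine (h ε hε0 hε1).trans ?_
    rw [← EReal.coe_mul, EReal.coe_le_coe_iff]
    have h2 : K * (2 / ε) ^ (1 - α) + 2 ≤ C * ε ^ (-(1 - α)) := by
      have h3 : (2 / ε) ^ (1 - α) = 2 ^ (1 - α) * ε ^ (-(1 - α)) := by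
        rw [Real.div_rpow (by norm_num) hε0.le, Real.rpow_neg hε0.le]; rfl
      have h4 : 1 ≤ ε ^ (-(1 - α)) := Real.one_le_rpow_of_pos_of_le_one_of_nonpos hε0 hε1.le (by linarith)
      rw [h3, hC]
      nlinarith
    have h5 : Real.log (K * (2 / ε) ^ (1 - α) + 2) ≤ Real.log (C * ε ^ (-(1 - α))) :=
      Real.log_le_log (by positivity) h2
    rw [Real.log_mul hCpos.ne' (by positivity), Real.log_rpow hε0] at h5
    refine h5.trans (le_of_eq ?_)
    rw [mul_add, mul_div_cancel₀ _ hpos.ne', habs]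
    ring
  refine (limsup_le_limsup h1).trans ?_
  have h4 : Tendsto (fun ε : ℝ => ((Real.log C / |Real.log ε| + (1 - α) : ℝ) : EReal)) (𝓝[>] 0)
      (𝓝 ((1 - α : ℝ) : EReal)) := by
    rw [EReal.tendsto_coe]
    have h5 : Tendsto (fun ε : ℝ => |Real.log ε|) (𝓝[>] 0) atTop :=
      tendsto_abs_atBot_atTop.comp Real.tendsto_log_nhdsGT_zero
    have h6 := (h5.const_div_atTop (Real.log C)).add_const (1 - α)
    simpa using h6
  rw [h4.limsup_eq]

end Pool.Agent.R572.Hoelder
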